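import Pool.Agent.Lib.MP_0a1b52_lc.OrFinal

/-!
Counting form of the chain argument for circuits with few NOT gates: most pairs (planted clique,
coloured graph) are good tests.
-/

set_option autoImplicit false

namespace Pool.Agent.RandomCircuits

open Finset Pool.Agent.CliqueCircuits

variable {V : Type} {s : ℕ}

/-- The counting form of the choice of good tests for one block: there are few bad transversals and
few bad colourings, and every other pair is a good test. -/
theorem count_core {k m : ℕ} (C : Circuit V s) (K : ℕ)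
    (ρ : ℕ) (R : Finset (Fin s)) (hR : R.card ≤ ρ) (q l g : ℕ) (hq : 1 ≤ q) (hl : 2 ≤ l)
    (hKpos : 0 < K) (hmpos : 0 < m)
    (h1 : 8 * g * (s * (l * l) ^ (q + 1)) ≤ K ^ (q + 1))
    (h2 : 8 * g * (s * q ^ (l + 1)) ≤ m ^ (l + 1))
    (h3 : 4 * g * ((ρ + 1) * q ^ 2) < m ^ 2)
    (τ : V → InTy (Fin k × Fin m)) (hτ : ∀ v u u', τ v = InTy.pair u u' → u ≠ u')
    (b : Fin s → Prop) :
    ∃ (BadP : Finset (Fin k → Fin m)) (BadN : Finset (Fin k × Fin m → Fin K)),
      8 * g * BadP.card < 3 * m ^ k ∧ 8 * g * BadN.card ≤ K ^ (k * m) ∧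
      ∀ p ∉ BadP, ∀ c ∉ BadN, ∀ (valP valN : Fin s → Prop),
      C.IsFrozen b (fun v => (τ v).pos p) valP →
      C.IsFrozen b (fun v => (τ v).neg c) valN →
      ∀ w, C.IsTgt R w →
        Sum.elim (fun v => (τ v).pos p) valP w → Sum.elim (fun v => (τ v).neg c) valN w := by
  classical
  obtain ⟨T, hTc, hT⟩ := C.exists_tgts R
  obtain ⟨BadP, BadN, hPc, hNc, hdich⟩ := approx_main C b τ hτ K q l hq hl
  have hdich' : ∀ (w : V ⊕ Fin s),
      ∃ I : Finset (Finset (Fin k × Fin m)), I.card ≤ q ^ 2 ∧ (∀ y ∈ I, y.card = 2) ∧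
        ((∀ c ∉ BadN, ∀ val, C.IsFrozen b (fun v => (τ v).neg c) val →
          Sum.elim (fun v => (τ v).neg c) val w) ∨
          ∀ p ∉ BadP, ∀ val, C.IsFrozen b (fun v => (τ v).pos p) val →
            Sum.elim (fun v => (τ v).pos p) val w → ∃ y ∈ I, y ⊆ trans p) := by
    intro w
    rcases hdich w with h | ⟨I, hI, hI2, h⟩
    · exact ⟨∅, by simp, by simp, Or.inl h⟩
    · exact ⟨I, hI, hI2, Or.inr h⟩
  choose I hIc hI2 hI using hdich'
  let H : Finset (Fin k → Fin m) := T.biUnion
      (fun w => (I w).biUnion (fun y => univ.filter (fun p => y ⊆ trans p)))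
  refine ⟨BadP ∪ H, BadN, ?_, ?_, ?_⟩
  · have hY : H.card * m ^ 2 ≤ (ρ + 1) * q ^ 2 * m ^ k := by
      calc H.card * m ^ 2 ≤ (∑ w ∈ T, ((I w).biUnion
            (fun y => univ.filter (fun p : Fin k → Fin m => y ⊆ trans p))).card) * m ^ 2 :=
            Nat.mul_le_mul_right _ card_biUnion_le
        _ = ∑ w ∈ T, ((I w).biUnion
            (fun y => univ.filter (fun p : Fin k → Fin m => y ⊆ trans p))).card * m ^ 2 := by
            rw [sum_mul]
        _ ≤ ∑ w ∈ T, q ^ 2 * m ^ k := by
            refine sum_le_sum fun w _ => ?_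
            calc _ ≤ (∑ y ∈ I w,
                  (univ.filter (fun p : Fin k → Fin m => y ⊆ trans p)).card) * m ^ 2 :=
                  Nat.mul_le_mul_right _ card_biUnion_le
              _ = ∑ y ∈ I w,
                  (univ.filter (fun p : Fin k → Fin m => y ⊆ trans p)).card * m ^ 2 := by
                  rw [sum_mul]
              _ ≤ ∑ y ∈ I w, m ^ k := sum_le_sum fun y hy => by
                  have := trans_card_le y
                  rwa [hI2 _ y hy] at this
              _ = (I w).card * m ^ k := by rw [sum_const, smul_eq_mul]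
              _ ≤ q ^ 2 * m ^ k := Nat.mul_le_mul_right _ (hIc _)
        _ = T.card * (q ^ 2 * m ^ k) := by
            rw [sum_const, smul_eq_mul]
        _ ≤ (ρ + 1) * (q ^ 2 * m ^ k) :=
            Nat.mul_le_mul_right _ (hTc.trans (by omega))
        _ = (ρ + 1) * q ^ 2 * m ^ k := by ring
    have hX' : 8 * g * BadP.card ≤ m ^ k := by
      have hpos : 0 < m ^ (l + 1) := pow_pos hmpos _
      refine Nat.le_of_mul_le_mul_right ?_ hpos
      calc 8 * g * BadP.card * m ^ (l + 1) = 8 * g * (BadP.card * m ^ (l + 1)) := by ring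
        _ ≤ 8 * g * (s * (q ^ (l + 1) * m ^ k)) := Nat.mul_le_mul_left _ hPc
        _ = 8 * g * (s * q ^ (l + 1)) * m ^ k := by ring
        _ ≤ m ^ (l + 1) * m ^ k := Nat.mul_le_mul_right _ h2
        _ = m ^ k * m ^ (l + 1) := by ring
    have hY' : 4 * g * H.card < m ^ k := by
      refine Nat.lt_of_mul_lt_mul_right (a := m ^ 2) ?_
      calc 4 * g * H.card * m ^ 2 = 4 * g * (H.card * m ^ 2) := by ring
        _ ≤ 4 * g * ((ρ + 1) * q ^ 2 * m ^ k) := Nat.mul_le_mul_left _ hY
        _ = 4 * g * ((ρ + 1) * q ^ 2) * m ^ k := by ring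
        _ < m ^ 2 * m ^ k := Nat.mul_lt_mul_of_pos_right h3 (pow_pos hmpos _)
        _ = m ^ k * m ^ 2 := by ring
    have hU : 8 * g * (BadP ∪ H).card ≤ 8 * g * BadP.card + 2 * (4 * g * H.card) := by
      calc 8 * g * (BadP ∪ H).card ≤ 8 * g * (BadP.card + H.card) :=
            Nat.mul_le_mul_left _ (card_union_le _ _)
        _ = 8 * g * BadP.card + 2 * (4 * g * H.card) := by ring
    omega
  · have hpos : 0 < K ^ (q + 1) := pow_pos hKpos _
    refine Nat.le_of_mul_le_mul_right ?_ hpos
    calc 8 * g * BadN.card * K ^ (q + 1) = 8 * g * (BadN.card * K ^ (q + 1)) := by ring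
      _ ≤ 8 * g * (s * ((l * l) ^ (q + 1) * K ^ (k * m))) := Nat.mul_le_mul_left _ hNc
      _ = 8 * g * (s * (l * l) ^ (q + 1)) * K ^ (k * m) := by ring
      _ ≤ K ^ (q + 1) * K ^ (k * m) := Nat.mul_le_mul_right _ h1
      _ = K ^ (k * m) * K ^ (q + 1) := by ring
  · intro p hp c hc valP valN hvP hvN w hw hvw
    rw [mem_union, not_or] at hp
    rcases hI w with h | h
    · exact h c hc valN hvN
    · exfalso
      obtain ⟨y, hy, hyp⟩ := h p hp.1 valP hvP hvw
      apply hp.2
      simp only [H, mem_biUnion, mem_filter, mem_univ, true_and]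
      exact ⟨w, hT w hw, y, hy, hyp⟩

open Classical in
/-- Markov's argument in counting form: the values of the NOT gates change at most `2 ^ ρ - 1`
times along a chain of inputs, if only the NOT gates in `R` can change. -/
theorem markov_count {C : Circuit V s} {ρ L : ℕ} (R : Finset (Fin s)) (hR : R.card ≤ ρ)
    (x : ℕ → V → Prop) (val : ℕ → Fin s → Prop) (hval : ∀ j, C.IsEvalM (x j) (val j))
    (hx : ∀ j v, x j v → x (j + 1) v)
    (hconst : ∀ i, C.kind i = GateKind.not → i ∉ R → ∀ j, (val j i ↔ val (j + 1) i)) :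
    ((range L).filter (fun j => ¬ ∀ i, C.kind i = GateKind.not →
      (val j i ↔ val (j + 1) i))).card < 2 ^ ρ := by
  let β : ℕ → Lex (Fin s → Bool) := fun j =>
    toLex (fun i => decide (i ∈ R ∧ C.kind i = GateKind.not ∧ val j i))
  let Ch : ℕ → Prop := fun j => ¬ ∀ i, C.kind i = GateKind.not → (val j i ↔ val (j + 1) i)
  have hstep : ∀ j, Ch j → β (j + 1) < β j := by
    intro j hj
    have hex : ∃ i, C.kind i = GateKind.not ∧ ¬ (val j i ↔ val (j + 1) i) := by
      simp only [Ch] at hj
      push Not at hj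
      obtain ⟨i, hi, hne⟩ := hj
      refine ⟨i, hi, ?_⟩
      tauto
    obtain ⟨i, ⟨hik, hine⟩, hmin⟩ : ∃ i, (C.kind i = GateKind.not ∧ ¬ (val j i ↔ val (j + 1) i)) ∧
        ∀ i', i' < i → ¬ (C.kind i' = GateKind.not ∧ ¬ (val j i' ↔ val (j + 1) i')) := by
      obtain ⟨i, hi, hmin⟩ := WellFounded.has_min (wellFounded_lt (α := Fin s))
        {i | C.kind i = GateKind.not ∧ ¬ (val j i ↔ val (j + 1) i)} hex
      exact ⟨i, hi, fun i' hi' hi'' => hmin i' hi'' hi'⟩
    have hiR : i ∈ R := by
      by_contra h
      exact hine (hconst i hik h j)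
    have hbefore : ∀ i', i' < i → C.kind i' = GateKind.not → (val j i' ↔ val (j + 1) i') := by
      intro i' hi' hk
      by_contra hne
      exact hmin i' hi' ⟨hk, hne⟩
    have hmono := Circuit.mono_before (hval j) (hval (j + 1)) (hx j) i hbefore
    have hdec : val (j + 1) i → val j i := by
      intro hv
      have h1 := (hval (j + 1) i).1 hv
      rw [hval j i]
      simp only [hik] at h1 ⊢
      intro w hw hvw
      apply h1 w hw
      cases w with
      | inl v => exact hx j v hvw
      | inr j' => exact hmono j' (C.acyclic i j' hw) hvw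
    have h1 : val j i := by tauto
    have h2 : ¬ val (j + 1) i := by tauto
    refine ⟨i, ?_, ?_⟩
    · intro i' hi'
      by_cases hk : C.kind i' = GateKind.not
      · have := hbefore i' hi' hk
        simp only [β, Pi.toLex_apply, hk, true_and]
        by_cases hv : val j i'
        · simp [hv, this.1 hv]
        · have : ¬ val (j + 1) i' := fun h => hv (this.2 h)
          simp [hv, this]
      · simp [β, hk]
    · simp [β, hik, hiR, h1, h2]
  have hstep' : ∀ j, β (j + 1) ≤ β j := by
    intro j
    by_cases hj : Ch j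
    · exact (hstep j hj).le
    · simp only [Ch, not_not] at hj
      apply le_of_eq
      simp only [β]
      congr 1
      funext i
      apply decide_eq_decide.2
      constructor
      · rintro ⟨h1, h2, h3⟩
        exact ⟨h1, h2, (hj i h2).2 h3⟩
      · rintro ⟨h1, h2, h3⟩
        exact ⟨h1, h2, (hj i h2).1 h3⟩
  have hanti : Antitone β := antitone_nat_of_succ_le hstep'
  -- the sets of true NOT gates in `R` at the times of change and at time `L` are distinct
  let S : ℕ → Finset (Fin s) := fun j => R.filter (fun i => C.kind i = GateKind.not ∧ val j i)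
  have hβS : ∀ j j', S j = S j' → β j = β j' := by
    intro j j' heq
    simp only [β]
    congr 1
    funext i
    have : (i ∈ S j) ↔ (i ∈ S j') := by rw [heq]
    simp only [S, mem_filter] at this
    exact decide_eq_decide.2 this
  have hne : ∀ j j', j < j' → Ch j → S j ≠ S j' := by
    intro j j' hjj hj heq
    have h1 := hβS _ _ heq
    have h2 : β j' ≤ β (j + 1) := hanti hjj
    have h3 := hstep j hj
    rw [h1] at h3
    exact absurd (lt_of_lt_of_le h3 h2) (lt_irrefl _)
  have hcard : (insert L ((range L).filter (fun j => ¬ ∀ i, C.kind i = GateKind.not →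
      (val j i ↔ val (j + 1) i)))).card ≤ R.powerset.card := by
    refine card_le_card_of_injOn S ?_ ?_
    · intro j _
      simp only [coe_powerset, Set.mem_preimage, Set.mem_powerset_iff, coe_subset]
      exact filter_subset _ _
    · intro j hj j' hj' heq
      simp only [coe_insert, coe_filter, mem_range, Set.mem_insert_iff, Set.mem_ofPred_eq] at hj hj'
      rcases lt_trichotomy j j' with h | h | h
      · have hch : Ch j := by
          rcases hj with rfl | hj
          · rcases hj' with rfl | hj'
            · exact absurd h (lt_irrefl _)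
            · exact absurd (h.trans hj'.1) (lt_irrefl _)
          · exact hj.2
        exact absurd heq (hne j j' h hch)
      · exact h
      · have hch : Ch j' := by
          rcases hj' with rfl | hj'
          · rcases hj with rfl | hj
            · exact absurd h (lt_irrefl _)
            · exact absurd (h.trans hj.1) (lt_irrefl _)
          · exact hj'.2
        exact absurd heq.symm (hne j' j h hch)
  rw [card_insert_of_notMem (by simp), card_powerset] at hcard
  have : 2 ^ R.card ≤ 2 ^ ρ := Nat.pow_le_pow_right (by norm_num) hR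
  omega

end Pool.Agent.RandomCircuits
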