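import Pool.Agent.Lib.MP_b573ec_lc.Core

/-!
The counting form of the chain theorem.
-/

set_option autoImplicit false

namespace Pool.Agent.RandomCircuits

open Finset Pool.Agent.CliqueCircuits

variable {V : Type} {s : ℕ}

/-- the circuit accepts the input -/
def Acc (C : Circuit V s) (x : V → Prop) : Prop := ∃ val, C.IsEvalM x val ∧ val C.out

theorem sum_update {ι X : Type} [Fintype ι] [DecidableEq ι] [Fintype X] (j : ι)
    (f : (ι → X) → ℕ) :
    ∑ c : ι → X, ∑ x : X, f (Function.update c j x) = Fintype.card X * ∑ c : ι → X, f c := by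
  let E : (ι → X) × X ≃ (ι → X) × X :=
    { toFun := fun z => (Function.update z.1 j z.2, z.1 j)
      invFun := fun z => (Function.update z.1 j z.2, z.1 j)
      left_inv := by
        intro z
        simp
      right_inv := by
        intro z
        simp }
  calc ∑ c : ι → X, ∑ x : X, f (Function.update c j x)
      = ∑ z : (ι → X) × X, f (E z).1 := by
        rw [Fintype.sum_prod_type]
        rfl
    _ = ∑ z : (ι → X) × X, f z.1 := Equiv.sum_comp E (fun z => f z.1)
    _ = ∑ c : ι → X, ∑ _x : X, f c := by rw [Fintype.sum_prod_type]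
    _ = Fintype.card X * ∑ c : ι → X, f c := by
        rw [mul_sum]
        refine sum_congr rfl fun c _ => ?_
        rw [sum_const, card_univ, smul_eq_mul]

section Chain

variable {L k m K : ℕ}

/-- If the test is good and the NOT gates do not change, acceptance is inherited. -/
theorem acc_step (C : Circuit V s) (F : OrFamily V L k m K) (R : Finset (Fin s))
    (hconst : ∀ i, C.kind i = GateKind.not → i ∉ R → ∀ st st' val val',
      C.IsEvalM (F.asg st) val → C.IsEvalM (F.asg st') val' → (val i ↔ val' i))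
    (c : Fin L → Fin k × Fin m → Fin K) (p : Fin k → Fin m) (J : Fin L)
    (hgood : GoodO C F R (fun _ => p) c J) (v0 v1 : Fin s → Prop)
    (hv0 : C.IsEvalM (F.asg (stN c J.val)) v0) (hv1 : C.IsEvalM (F.asg (stN c (J.val + 1))) v1)
    (hnot : ∀ i, C.kind i = GateKind.not → (v0 i ↔ v1 i))
    (hacc : Acc C (F.asg (Function.update (stN c J.val) J (OState.tr p)))) :
    Acc C (F.asg (stN c (J.val + 1))) := by
  obtain ⟨valP', hvP', hout⟩ := hacc
  obtain ⟨valP, hvalP⟩ := C.exists_frozen v0
    (F.asg (Function.update (stN c J.val) J (OState.tr p)))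
  have hNP : ∀ v, F.asg (stN c J.val) v →
      F.asg (Function.update (stN c J.val) J (OState.tr p)) v := by
    intro v hv
    refine F.mono _ _ ?_ v hv
    intro i u u' h
    by_cases hi : i = J
    · subst hi
      simp only [stN] at h
      rw [if_neg (lt_irrefl _)] at h
      exact absurd h (by simp [OState.rel])
    · rw [Function.update_of_ne hi]
      exact h
  have hNfrozen : C.IsFrozen v0 (F.asg (stN c (J.val + 1))) v1 :=
    hv1.isFrozen (fun i hi => hnot i hi)
  have hgoodJ := hgood v0 valP v1 hv0 hvalP hNfrozen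
  have hiff := Circuit.finishO R hv0 hv1 hnot hvalP hNP hvP'
    (fun i hi hiR => hconst i hi hiR _ _ _ _ hvP' hv0)
    (fun i hi hk w hw => hgoodJ w (Or.inr ⟨i, hi, hk, hw⟩))
  exact ⟨v1, hv1, hgoodJ (Sum.inr C.out) (Or.inl rfl) ((hiff C.out).2 hout)⟩

open Classical in
/-- For every step, few pairs are bad tests. -/
theorem count_notgood (C : Circuit V s) (F : OrFamily V L k m K)
    (ρ : ℕ) (R : Finset (Fin s)) (hR : R.card ≤ ρ) (q l g : ℕ) (hq : 1 ≤ q) (hl : 2 ≤ l)
    (hKpos : 0 < K) (hmpos : 0 < m)
    (h1 : 8 * g * (s * (l * l) ^ (q + 1)) ≤ K ^ (q + 1))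
    (h2 : 8 * g * (s * q ^ (l + 1)) ≤ m ^ (l + 1))
    (h3 : 4 * g * ((ρ + 1) * q ^ 2) < m ^ 2) (j : Fin L) :
    2 * g * ∑ c : Fin L → Fin k × Fin m → Fin K,
        (univ.filter (fun p : Fin k → Fin m => ¬ GoodO C F R (fun _ => p) c j)).card ≤
      Fintype.card (Fin L → Fin k × Fin m → Fin K) * m ^ k := by
  have hXcard : Fintype.card (Fin k × Fin m → Fin K) = K ^ (k * m) := by
    rw [Fintype.card_fun, Fintype.card_fin, Fintype.card_prod, Fintype.card_fin, Fintype.card_fin]
  have hPcard : Fintype.card (Fin k → Fin m) = m ^ k := by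
    rw [Fintype.card_fun, Fintype.card_fin, Fintype.card_fin]
  have hXpos : 0 < K ^ (k * m) := pow_pos hKpos _
  have hA : ∀ c : Fin L → Fin k × Fin m → Fin K,
      2 * g * ∑ x : Fin k × Fin m → Fin K, (univ.filter (fun p : Fin k → Fin m =>
        ¬ GoodO C F R (fun _ => p) (Function.update c j x) j)).card ≤ K ^ (k * m) * m ^ k := by
    intro c
    obtain ⟨b, hb⟩ := C.exists_eval (F.asg (stN c j))
    obtain ⟨τ, hτ, hτP, hτN⟩ := F.loc (stN c j) j
    obtain ⟨BadP, BadN, hBP, hBN, hgood⟩ :=
      count_core C K ρ R hR q l g hq hl hKpos hmpos h1 h2 h3 τ hτ b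
    have hstc : ∀ x, stN (Function.update c j x) j.val = stN c j.val := by
      intro x
      refine stN_congr _ _ _ ?_
      intro i hi
      rw [Function.update_of_ne]
      intro h
      rw [h] at hi
      exact lt_irrefl _ hi
    have hgx : ∀ x ∉ BadN, ∀ p ∉ BadP, GoodO C F R (fun _ => p) (Function.update c j x) j := by
      intro x hx p hp
      unfold GoodO
      intro val valP valN hv hvP hvN
      rw [stN_succ] at hvN ⊢
      rw [hstc] at hv hvP hvN ⊢
      rw [Function.update_self] at hvN ⊢
      have hvb : val = b := hv.unique hb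
      subst hvb
      have hxP : (fun v => (τ v).pos p) = F.asg (Function.update (stN c j) j (OState.tr p)) := by
        funext v
        exact propext (hτP p v)
      have hxN : (fun v => (τ v).neg x) =
          F.asg (Function.update (stN c j) j (OState.col x)) := by
        funext v
        exact propext (hτN x v)
      have h := hgood p hp x hx valP valN
      rw [hxP, hxN] at h
      exact h hvP hvN
    have hle : ∀ x : Fin k × Fin m → Fin K, (univ.filter (fun p : Fin k → Fin m =>
        ¬ GoodO C F R (fun _ => p) (Function.update c j x) j)).card ≤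
          BadP.card + (if x ∈ BadN then m ^ k else 0) := by
      intro x
      by_cases hx : x ∈ BadN
      · rw [if_pos hx]
        calc _ ≤ (univ : Finset (Fin k → Fin m)).card := card_le_card (filter_subset _ _)
          _ = m ^ k := by rw [card_univ, hPcard]
          _ ≤ _ := Nat.le_add_left _ _
      · rw [if_neg hx, add_zero]
        refine card_le_card ?_
        intro p hp
        rw [mem_filter] at hp
        by_contra hpB
        exact hp.2 (hgx x hx p hpB)
    calc 2 * g * ∑ x : Fin k × Fin m → Fin K, (univ.filter (fun p : Fin k → Fin m =>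
        ¬ GoodO C F R (fun _ => p) (Function.update c j x) j)).card
        ≤ 2 * g * ∑ x : Fin k × Fin m → Fin K,
            (BadP.card + (if x ∈ BadN then m ^ k else 0)) :=
          Nat.mul_le_mul_left _ (sum_le_sum fun x _ => hle x)
      _ = 2 * g * (K ^ (k * m) * BadP.card + BadN.card * m ^ k) := by
          rw [sum_add_distrib, sum_const, card_univ, hXcard, smul_eq_mul, sum_ite_mem,
            univ_inter, sum_const, smul_eq_mul]
      _ ≤ K ^ (k * m) * m ^ k := by
          have e1 : 4 * (2 * g * (K ^ (k * m) * BadP.card + BadN.card * m ^ k)) =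
              K ^ (k * m) * (8 * g * BadP.card) + (8 * g * BadN.card) * m ^ k := by ring
          have e2 : K ^ (k * m) * (8 * g * BadP.card) ≤ K ^ (k * m) * (3 * m ^ k) :=
            Nat.mul_le_mul_left _ hBP.le
          have e3 : (8 * g * BadN.card) * m ^ k ≤ K ^ (k * m) * m ^ k :=
            Nat.mul_le_mul_right _ hBN
          have e4 : K ^ (k * m) * (3 * m ^ k) = 3 * (K ^ (k * m) * m ^ k) := by ring
          omega
  refine le_of_mul_le_mul_left (a := K ^ (k * m)) ?_ hXpos
  have hB := sum_update j (fun c : Fin L → Fin k × Fin m → Fin K =>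
    (univ.filter (fun p : Fin k → Fin m => ¬ GoodO C F R (fun _ => p) c j)).card)
  rw [hXcard] at hB
  calc K ^ (k * m) * (2 * g * ∑ c : Fin L → Fin k × Fin m → Fin K,
        (univ.filter (fun p : Fin k → Fin m => ¬ GoodO C F R (fun _ => p) c j)).card)
      = 2 * g * (K ^ (k * m) * ∑ c : Fin L → Fin k × Fin m → Fin K,
        (univ.filter (fun p : Fin k → Fin m => ¬ GoodO C F R (fun _ => p) c j)).card) := by ring
    _ = ∑ c : Fin L → Fin k × Fin m → Fin K, 2 * g * ∑ x : Fin k × Fin m → Fin K,
        (univ.filter (fun p : Fin k → Fin m =>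
          ¬ GoodO C F R (fun _ => p) (Function.update c j x) j)).card := by
        rw [← hB, mul_sum]
    _ ≤ ∑ _c : Fin L → Fin k × Fin m → Fin K, K ^ (k * m) * m ^ k :=
        sum_le_sum fun c _ => hA c
    _ = K ^ (k * m) * (Fintype.card (Fin L → Fin k × Fin m → Fin K) * m ^ k) := by
        rw [sum_const, card_univ, smul_eq_mul]
        ring

open Classical in
/-- The counting form of the chain theorem. -/
theorem chain_count (C : Circuit V s) (F : OrFamily V L k m K)
    (ρ : ℕ) (R : Finset (Fin s)) (hR : R.card ≤ ρ)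
    (hconst : ∀ i, C.kind i = GateKind.not → i ∉ R → ∀ st st' val val',
      C.IsEvalM (F.asg st) val → C.IsEvalM (F.asg st') val' → (val i ↔ val' i))
    (q l g : ℕ) (hq : 1 ≤ q) (hl : 2 ≤ l) (hg : 1 ≤ g)
    (hKpos : 0 < K) (hmpos : 0 < m)
    (h1 : 8 * g * (s * (l * l) ^ (q + 1)) ≤ K ^ (q + 1))
    (h2 : 8 * g * (s * q ^ (l + 1)) ≤ m ^ (l + 1))
    (h3 : 4 * g * ((ρ + 1) * q ^ 2) < m ^ 2) :
    2 * g * (univ.filter (fun z : Fin L × (Fin L → Fin k × Fin m → Fin K) × (Fin k → Fin m) =>
        Acc C (F.asg (Function.update (stN z.2.1 z.1.val) z.1 (OState.tr z.2.2))) ∧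
        ¬ Acc C (F.asg (stN z.2.1 (z.1.val + 1))))).card <
      (2 * g * 2 ^ ρ + L) * (Fintype.card (Fin L → Fin k × Fin m → Fin K) * m ^ k) := by
  let X := Fin L → Fin k × Fin m → Fin K
  let P := Fin k → Fin m
  have hPcard : Fintype.card (Fin k → Fin m) = m ^ k := by
    rw [Fintype.card_fun, Fintype.card_fin, Fintype.card_fin]
  have hXpos : 0 < Fintype.card (Fin L → Fin k × Fin m → Fin K) := by
    rw [Fintype.card_pos_iff]
    exact ⟨fun _ _ => ⟨0, hKpos⟩⟩
  have hPpos : 0 < m ^ k := pow_pos hmpos _
  have hev : ∀ (c : X) (j : ℕ), ∃ v, C.IsEvalM (F.asg (stN c j)) v :=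
    fun c j => C.exists_eval _
  choose val hval using hev
  let Ch : X → ℕ → Prop := fun c j =>
    ¬ ∀ i, C.kind i = GateKind.not → (val c j i ↔ val c (j + 1) i)
  have hx : ∀ (c : X) (j : ℕ) v, F.asg (stN c j) v → F.asg (stN c (j + 1)) v := by
    intro c j v hv
    refine F.mono _ _ ?_ v hv
    intro i u u' h
    simp only [stN] at h ⊢
    by_cases hi : i.val < j
    · rw [if_pos hi] at h
      rw [if_pos (by omega)]
      exact h
    · rw [if_neg hi] at h
      exact absurd h (by simp [OState.rel])
  have hmk : ∀ c : X, ((range L).filter (fun j => Ch c j)).card < 2 ^ ρ := fun c =>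
    markov_count R hR (fun j => F.asg (stN c j)) (val c) (hval c) (hx c)
      (fun i hi hiR j => hconst i hi hiR _ _ _ _ (hval c j) (hval c (j + 1)))
  -- the two parts
  let B : Finset (Fin L × X × P) := univ.filter (fun z =>
        Acc C (F.asg (Function.update (stN z.2.1 z.1.val) z.1 (OState.tr z.2.2))) ∧
        ¬ Acc C (F.asg (stN z.2.1 (z.1.val + 1))))
  let B1 : Finset (Fin L × X × P) := univ.filter (fun z => Ch z.2.1 z.1.val)
  let B2 : Finset (Fin L × X × P) := univ.filter (fun z =>
    ¬ GoodO C F R (fun _ => z.2.2) z.2.1 z.1)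
  have hsub : B ⊆ B1 ∪ B2 := by
    intro z hz
    simp only [B, B1, B2, mem_filter, mem_univ, true_and, mem_union] at hz ⊢
    by_contra hcon
    rw [not_or, not_not] at hcon
    obtain ⟨hc1, hc2⟩ := hcon
    exact hz.2 (acc_step C F R hconst z.2.1 z.2.2 z.1 (not_not.1 hc2) _ _
      (hval z.2.1 z.1.val) (hval z.2.1 (z.1.val + 1)) hc1 hz.1)
  have hB1 : B1.card < 2 ^ ρ * (Fintype.card X * m ^ k) := by
    have e1 : B1.card = ∑ c : X, ∑ _p : P, (univ.filter (fun j : Fin L => Ch c j.val)).card := by
      simp only [B1, card_filter]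
      rw [Fintype.sum_prod_type, sum_comm, Fintype.sum_prod_type]
    rw [e1]
    calc ∑ c : X, ∑ _p : P, (univ.filter (fun j : Fin L => Ch c j.val)).card
        < ∑ c : X, ∑ _p : P, 2 ^ ρ := by
          refine sum_lt_sum_of_nonempty (univ_nonempty_iff.2 (Fintype.card_pos_iff.1 hXpos)) ?_
          intro c _
          refine sum_lt_sum_of_nonempty (univ_nonempty_iff.2 (Fintype.card_pos_iff.1
            (by rw [hPcard]; exact hPpos))) ?_
          intro p _
          refine lt_of_le_of_lt ?_ (hmk c)
          refine card_le_card_of_injOn (fun j : Fin L => j.val) ?_ ?_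
          · intro j hj
            simp only [coe_filter, mem_univ, true_and, Set.mem_ofPred_eq, mem_range] at hj ⊢
            exact ⟨j.isLt, hj⟩
          · intro j _ j' _ h
            exact Fin.ext h
      _ = 2 ^ ρ * (Fintype.card X * m ^ k) := by
          rw [sum_const, sum_const, card_univ, card_univ, smul_eq_mul, smul_eq_mul, hPcard]
          ring
  have hB2 : 2 * g * B2.card ≤ L * (Fintype.card X * m ^ k) := by
    have e1 : B2.card = ∑ j : Fin L, ∑ c : X,
        (univ.filter (fun p : P => ¬ GoodO C F R (fun _ => p) c j)).card := by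
      simp only [B2, card_filter]
      rw [Fintype.sum_prod_type]
      refine sum_congr rfl fun j _ => ?_
      rw [Fintype.sum_prod_type]
    rw [e1, mul_sum]
    calc ∑ j : Fin L, 2 * g * ∑ c : X,
        (univ.filter (fun p : P => ¬ GoodO C F R (fun _ => p) c j)).card
        ≤ ∑ _j : Fin L, Fintype.card X * m ^ k :=
          sum_le_sum fun j _ => count_notgood C F ρ R hR q l g hq hl hKpos hmpos h1 h2 h3 j
      _ = L * (Fintype.card X * m ^ k) := by
          rw [sum_const, card_univ, Fintype.card_fin, smul_eq_mul]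
  calc 2 * g * B.card ≤ 2 * g * (B1.card + B2.card) :=
        Nat.mul_le_mul_left _ ((card_le_card hsub).trans (card_union_le _ _))
    _ = 2 * g * B1.card + 2 * g * B2.card := by ring
    _ < 2 * g * (2 ^ ρ * (Fintype.card X * m ^ k)) + L * (Fintype.card X * m ^ k) := by
        refine add_lt_add_of_lt_of_le ?_ hB2
        exact Nat.mul_lt_mul_of_pos_left hB1 (by omega)
    _ = (2 * g * 2 ^ ρ + L) * (Fintype.card X * m ^ k) := by ring

end Chain

end Pool.Agent.RandomCircuits
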