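import Pool.Agent.Lib.MP_0a1b52_lc.Defs

/-!
Randomized circuits deciding the clique problem.
-/

set_option autoImplicit false

namespace Pool.Agent.RandomCircuits

open Pool.Agent.CliqueCircuits

/-- The graph `G` has a clique with more than `√n` vertices. -/
def HasBigClique {n : ℕ} (G : SimpleGraph (Fin n)) : Prop :=
  ∃ c : Finset (Fin n), G.IsClique (c : Set (Fin n)) ∧ Real.sqrt (n : ℝ) < (c.card : ℝ)

/-- The circuit `C`, whose inputs are the pairs `i < j` of vertices of an `n`-vertex graph and `t`
random bits, accepts the graph `G` with the random string `r`. -/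
def Accepts {n t s : ℕ} (C : Circuit ({p : Fin n × Fin n // p.1 < p.2} ⊕ Fin t) s)
    (G : SimpleGraph (Fin n)) (r : Fin t → Bool) : Prop :=
  ∃ val : Fin s → Prop,
    C.IsEval (Sum.elim (fun e => G.Adj e.1.1 e.1.2) (fun i => r i = true)) val ∧ val C.out

/-- The probability that `C` accepts `G`, over a uniformly distributed random string. -/
noncomputable def acceptProb {n t s : ℕ}
    (C : Circuit ({p : Fin n × Fin n // p.1 < p.2} ⊕ Fin t) s) (G : SimpleGraph (Fin n)) : ℝ :=
  (Nat.card {r : Fin t → Bool // Accepts C G r} : ℝ) / 2 ^ t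

/-- For the random string `r`, the value of gate `i` depends on the edges in `H`: two edge
assignments which agree outside `H` give it different values. -/
def DependsOnEdges {n t s : ℕ} (C : Circuit ({p : Fin n × Fin n // p.1 < p.2} ⊕ Fin t) s)
    (H : Finset {p : Fin n × Fin n // p.1 < p.2}) (r : Fin t → Bool) (i : Fin s) : Prop :=
  ∃ (x x' : {p : Fin n × Fin n // p.1 < p.2} → Prop) (val val' : Fin s → Prop),
    (∀ e, e ∉ H → (x e ↔ x' e)) ∧
    C.IsEval (Sum.elim x (fun i => r i = true)) val ∧
    C.IsEval (Sum.elim x' (fun i => r i = true)) val' ∧ ¬ (val i ↔ val' i)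

/-- The number of NOT gates whose value, for the random string `r`, depends on the edges in
`H`. -/
noncomputable def numNotGiven {n t s : ℕ}
    (C : Circuit ({p : Fin n × Fin n // p.1 < p.2} ⊕ Fin t) s)
    (H : Finset {p : Fin n × Fin n // p.1 < p.2}) (r : Fin t → Bool) : ℕ :=
  Nat.card {i : Fin s // C.kind i = GateKind.not ∧ DependsOnEdges C H r i}

end Pool.Agent.RandomCircuits
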