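import Pool.Agent.Lib.MP_b573ec_lc.Rand

/-!
Lower bound for randomized circuits deciding the clique problem: numerical form.
-/

set_option autoImplicit false

namespace Pool.Agent.RandomCircuits

open Finset Pool.Agent.CliqueCircuits

/-- The gadget with `L` blocks inside `H`, with transversals chosen in classes of size `a * c`,
`8 g a < c ^ 2`. -/
theorem gadget_general {n a g L : ℕ} (H : Finset {p : Fin n × Fin n // p.1 < p.2})
    (ha : 2 ≤ a) (hg : 1 ≤ g) (hn2a : n < 2 ^ a) (hL1 : 1 ≤ L)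
    (hh : 4 * (2 * a) ^ 16 * g ^ 2 * L ≤ H.card) :
    ∃ (c e : ℕ) (D : RoleData n L (2 * a ^ 2 + 1) (a * c) e), 8 * g * a < c * c ∧ 2 ≤ c ∧
      (∀ j ξ, HR H (D.zc j (D.π ξ)) (D.wl j ξ)) ∧ D.slots = Nat.sqrt n + 1 := by
  have hHn : H.card ≤ n ^ 2 := by
    refine (card_le_univ H).trans ((Fintype.card_subtype_le _).trans ?_)
    simp [sq]
  have hg2 : 1 ≤ g ^ 2 := Nat.one_le_pow _ _ hg
  -- `n` is large
  have hn8 : 256 * a ^ 8 ≤ n := by
    have h1 : (256 * a ^ 8) ^ 2 ≤ n ^ 2 := by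
      calc (256 * a ^ 8) ^ 2 = (2 * a) ^ 16 * 1 * 1 := by ring
        _ ≤ 4 * (2 * a) ^ 16 * g ^ 2 * L :=
            Nat.mul_le_mul (Nat.mul_le_mul (by omega) hg2) hL1
        _ ≤ n ^ 2 := hh.trans hHn
    exact (Nat.pow_le_pow_iff_left (by norm_num)).1 h1
  have ha1 : 1 ≤ a ^ 4 := Nat.one_le_pow _ _ (by omega)
  have hsq : 16 * a ^ 4 ≤ Nat.sqrt n := by
    rw [Nat.le_sqrt]
    calc 16 * a ^ 4 * (16 * a ^ 4) = 256 * a ^ 8 := by ring
      _ ≤ n := hn8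
  have hsqn : Nat.sqrt n * Nat.sqrt n ≤ n := Nat.sqrt_le n
  -- parameters
  obtain ⟨x, hx⟩ : ∃ x, x = g * a := ⟨_, rfl⟩
  have hx2 : 2 ≤ x := by
    rw [hx]
    calc 2 = 1 * 2 := rfl
      _ ≤ g * a := Nat.mul_le_mul hg ha
  obtain ⟨c, hc⟩ : ∃ c, c = Nat.sqrt (8 * x) + 1 := ⟨_, rfl⟩
  have hc1 : 8 * x < c * c := by
    rw [hc]
    exact Nat.lt_succ_sqrt _
  have hc4 : 4 ≤ Nat.sqrt (8 * x) := by
    rw [Nat.le_sqrt]
    omega
  have hc2 : c * c ≤ 13 * x := by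
    have h1 : Nat.sqrt (8 * x) * Nat.sqrt (8 * x) ≤ 8 * x := Nat.sqrt_le _
    rw [hc]
    nlinarith
  have hc3 : 2 ≤ c := by omega
  refine ⟨c, ?_⟩
  obtain ⟨k, hk⟩ : ∃ k, k = 2 * a ^ 2 + 1 := ⟨_, rfl⟩
  obtain ⟨m, hm⟩ : ∃ m, m = a * c := ⟨_, rfl⟩
  rw [← hk, ← hm]
  have ha2 : 4 ≤ a ^ 2 := by nlinarith
  have hk16 : 16 * k ^ 2 ≤ 81 * a ^ 4 := by
    have h1 : 4 * k ≤ 9 * a ^ 2 := by omega
    calc 16 * k ^ 2 = (4 * k) ^ 2 := by ring
      _ ≤ (9 * a ^ 2) ^ 2 := Nat.pow_le_pow_left h1 2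
      _ = 81 * a ^ 4 := by ring
  obtain ⟨P, hP⟩ : ∃ P, P = Fintype.card (PairT k m) := ⟨_, rfl⟩
  have hm2 : m ^ 2 ≤ 13 * g * a ^ 3 := by
    calc m ^ 2 = a ^ 2 * (c * c) := by rw [hm]; ring
      _ ≤ a ^ 2 * (13 * x) := Nat.mul_le_mul_left _ hc2
      _ = 13 * g * a ^ 3 := by rw [hx]; ring
  have hPle : 16 * P ≤ 1053 * g * a ^ 7 := by
    have h1 : P ≤ (k * m) ^ 2 := by rw [hP]; exact card_pairT_le k m
    calc 16 * P ≤ 16 * (k * m) ^ 2 := Nat.mul_le_mul_left _ h1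
      _ = (16 * k ^ 2) * m ^ 2 := by ring
      _ ≤ (81 * a ^ 4) * (13 * g * a ^ 3) := Nat.mul_le_mul hk16 hm2
      _ = 1053 * g * a ^ 7 := by ring
  obtain ⟨Q, hQ⟩ : ∃ Q, Q = Fintype.card (CP k) := ⟨_, rfl⟩
  have hQle : 16 * Q ≤ 81 * a ^ 4 := by
    have h1 : Q ≤ k ^ 2 := by rw [hQ]; exact card_classPair_le k
    exact (Nat.mul_le_mul_left _ h1).trans hk16
  have hP1 : 1 ≤ P := by
    rw [hP]
    refine Fintype.card_pos_iff.2 ⟨⟨((⟨0, by omega⟩, ⟨0, ?_⟩), (⟨1, by omega⟩, ⟨0, ?_⟩)), ?_⟩⟩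
    · rw [hm]; exact Nat.mul_pos (by omega) (by omega)
    · rw [hm]; exact Nat.mul_pos (by omega) (by omega)
    · rw [Fin.lt_def]; simp
  have hQs : 2 * Q ≤ Nat.sqrt n := by omega
  have hQ1 : 1 ≤ Q := by
    rw [hQ]
    refine Fintype.card_pos_iff.2 ⟨⟨(⟨0, by omega⟩, ⟨1, by omega⟩), ?_⟩⟩
    rw [Fin.lt_def]; simp
  obtain ⟨e, he⟩ : ∃ e, e = Nat.sqrt n + 1 - (1 + Q) := ⟨_, rfl⟩
  have he4 : 4 * e ≤ n := by
    have h1 : 4 * Nat.sqrt n ≤ Nat.sqrt n * Nat.sqrt n := Nat.mul_le_mul_right _ (by omega)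
    omega
  -- the packing
  have hcond : 192 * a * (a + 1) * P * L + 48 * a * P ^ 2 * L ≤ H.card := by
    refine le_trans ?_ hh
    have h1 : 192 * a * (a + 1) * P + 48 * a * P ^ 2 ≤ 4 * (2 * a) ^ 16 * g ^ 2 := by
      have e1 : 256 * (192 * a * (a + 1) * P + 48 * a * P ^ 2) =
          3072 * a * (a + 1) * (16 * P) + 48 * a * (16 * P) ^ 2 := by ring
      have e2 : 3072 * a * (a + 1) * (16 * P) + 48 * a * (16 * P) ^ 2 ≤
          3072 * a * (a + 1) * (1053 * g * a ^ 7) + 48 * a * (1053 * g * a ^ 7) ^ 2 := by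
        gcongr
      have e3 : 3072 * a * (a + 1) * (1053 * g * a ^ 7) + 48 * a * (1053 * g * a ^ 7) ^ 2 ≤
          256 * (4 * (2 * a) ^ 16 * g ^ 2) := by
        have f1 : a + 1 ≤ 2 * a := by omega
        have f2 : (1 : ℕ) ≤ a ^ 6 := Nat.one_le_pow _ _ (by omega)
        have f3 : g ≤ g ^ 2 := by nlinarith
        calc 3072 * a * (a + 1) * (1053 * g * a ^ 7) + 48 * a * (1053 * g * a ^ 7) ^ 2
            ≤ 3072 * a * (2 * a) * (1053 * g ^ 2 * a ^ 7) + 48 * a * (1053 * g * a ^ 7) ^ 2 := by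
              gcongr
          _ = (6469632 * g ^ 2 * a ^ 2) * a ^ 7 + (53222832 * g ^ 2 * a ^ 8) * a ^ 7 := by ring
          _ ≤ (6469632 * g ^ 2 * a ^ 2) * a ^ 7 * a ^ 6 + (53222832 * g ^ 2 * a ^ 8) * a ^ 7 :=
              Nat.add_le_add_right (Nat.le_mul_of_pos_right _ f2) _
          _ = 59692464 * (g ^ 2 * a ^ 15) := by ring
          _ ≤ (256 * 4 * 65536 * 2) * (g ^ 2 * a ^ 15) := Nat.mul_le_mul_right _ (by norm_num)
          _ = (256 * 4 * 65536 * g ^ 2 * a ^ 15) * 2 := by ring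
          _ ≤ (256 * 4 * 65536 * g ^ 2 * a ^ 15) * a := Nat.mul_le_mul_left _ ha
          _ = 256 * (4 * (2 * a) ^ 16 * g ^ 2) := by ring
      have e4 : 256 * (192 * a * (a + 1) * P + 48 * a * P ^ 2) ≤
          256 * (4 * (2 * a) ^ 16 * g ^ 2) := by
        rw [e1]
        exact e2.trans e3
      exact Nat.le_of_mul_le_mul_left e4 (by norm_num)
    calc 192 * a * (a + 1) * P * L + 48 * a * P ^ 2 * L
        = (192 * a * (a + 1) * P + 48 * a * P ^ 2) * L := by ring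
      _ ≤ 4 * (2 * a) ^ 16 * g ^ 2 * L := Nat.mul_le_mul_right _ h1
  have hk2 : 2 ≤ k := by omega
  have hc1' : 8 * g * a < c * c := by
    calc 8 * g * a = 8 * x := by rw [hx]; ring
      _ < c * c := hc1
  rcases exists_packing H (PairT k m) P e a L hP.symm hP1 he4 hn2a (by omega) hL1 hcond with hst | hmt
  · obtain ⟨D, hD1, hD2⟩ := star_gadget H hst
    refine ⟨e, D, hc1', hc3, hD1, ?_⟩
    rw [hD2, ← hQ]
    omega
  · rw [hP] at hmt
    have hmt' := hmt.mono (e' := Nat.sqrt n + 1 - (Q + Q)) (by omega)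
    obtain ⟨D, hD1, hD2⟩ := match_gadget hk2 H hmt'
    refine ⟨_, D, hc1', hc3, hD1, ?_⟩
    rw [hD2, ← hQ]
    omega

open Classical in
/-- natural-number form -/
theorem rand_nat {n t s ρ g a : ℕ} (hn1 : 1 ≤ n)
    (C : Circuit ({p : Fin n × Fin n // p.1 < p.2} ⊕ Fin t) s)
    (H : Finset {p : Fin n × Fin n // p.1 < p.2})
    (hρ : ∀ r, numNotGiven C H r ≤ ρ)
    (hgap : ∀ G G' : SimpleGraph (Fin n), HasBigClique G → ¬ HasBigClique G' →
      2 ^ t ≤ g * (univ.filter (fun r : Fin t → Bool => Accepts C G r ∧ ¬ Accepts C G' r)).card)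
    (hg : 1 ≤ g) (ha : 2 ≤ a) (hh : 4 * (2 * a) ^ 16 * g ^ 2 * (2 * g * 2 ^ ρ) ≤ H.card) :
    2 ^ a ≤ 4 * g * n * s := by
  by_contra hlt
  push Not at hlt
  have hspos : 1 ≤ s := by
    have := C.out.isLt
    omega
  have hHn : H.card ≤ n ^ 2 := by
    refine (card_le_univ H).trans ((Fintype.card_subtype_le _).trans ?_)
    simp [sq]
  have hρpos : 1 ≤ 2 ^ ρ := Nat.one_le_two_pow
  have hgn : 1 ≤ g * n := Nat.mul_pos hg hn1
  have hn2a : n < 2 ^ a := by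
    refine lt_of_le_of_lt ?_ hlt
    calc n = 1 * 1 * n * 1 := by ring
      _ ≤ 4 * g * n * s := by gcongr; norm_num
  have hs : 4 * g * s < 2 ^ a := by
    refine lt_of_le_of_lt ?_ hlt
    calc 4 * g * s = 4 * g * 1 * s := by ring
      _ ≤ 4 * g * n * s := by gcongr
  have hρa : ρ + 1 ≤ 2 * a := by
    have h1 : 2 ^ ρ ≤ n ^ 2 := by
      refine le_trans ?_ (hh.trans hHn)
      calc 2 ^ ρ = 1 * 1 * (1 * 2 ^ ρ) := by ring
        _ ≤ 4 * (2 * a) ^ 16 * g ^ 2 * (2 * g * 2 ^ ρ) := by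
            have f1 : 1 ≤ (2 * a) ^ 16 := Nat.one_le_pow _ _ (by omega)
            have f2 : 1 ≤ g ^ 2 := Nat.one_le_pow _ _ hg
            gcongr
            · omega
            · omega
    have h2 : n ^ 2 < (2 ^ a) ^ 2 := Nat.pow_lt_pow_left hn2a (by norm_num)
    rw [← pow_mul] at h2
    have h3 : ρ < a * 2 := (Nat.pow_lt_pow_iff_right (by norm_num)).1 (h1.trans_lt h2)
    omega
  have hL1 : 1 ≤ 2 * g * 2 ^ ρ := Nat.mul_pos (by omega) hρpos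
  obtain ⟨c, e, D, hc1, hc3, hD1, hslots⟩ := gadget_general H ha hg hn2a hL1 hh
  have ha2 : 4 ≤ a ^ 2 := by nlinarith
  have h3 : 4 * g * ((ρ + 1) * a ^ 2) < (a * c) ^ 2 := by
    calc 4 * g * ((ρ + 1) * a ^ 2) ≤ 4 * g * (2 * a * a ^ 2) :=
          Nat.mul_le_mul_left _ (Nat.mul_le_mul_right _ hρa)
      _ = 8 * g * a * a ^ 2 := by ring
      _ < c * c * a ^ 2 := Nat.mul_lt_mul_of_pos_right hc1 (by omega)
      _ = (a * c) ^ 2 := by ring
  have hs' : 8 * g * s ≤ 2 ^ (a + 1) := by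
    rw [pow_succ]
    have : 8 * g * s = 4 * g * s * 2 := by ring
    omega
  have h1 : 8 * g * (s * (a * a) ^ (a + 1)) ≤ (2 * a ^ 2) ^ (a + 1) := by
    calc 8 * g * (s * (a * a) ^ (a + 1)) = (8 * g * s) * (a * a) ^ (a + 1) := by ring
      _ ≤ 2 ^ (a + 1) * (a * a) ^ (a + 1) := Nat.mul_le_mul_right _ hs'
      _ = (2 * (a * a)) ^ (a + 1) := (mul_pow _ _ _).symm
      _ = (2 * a ^ 2) ^ (a + 1) := by rw [sq]
  have h2 : 8 * g * (s * a ^ (a + 1)) ≤ (a * c) ^ (a + 1) := by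
    calc 8 * g * (s * a ^ (a + 1)) = (8 * g * s) * a ^ (a + 1) := by ring
      _ ≤ 2 ^ (a + 1) * a ^ (a + 1) := Nat.mul_le_mul_right _ hs'
      _ ≤ c ^ (a + 1) * a ^ (a + 1) := by
          refine Nat.mul_le_mul_right _ (Nat.pow_le_pow_left hc3 _)
      _ = (a * c) ^ (a + 1) := by rw [mul_pow, Nat.mul_comm]
  exact rand_finite (K := 2 * a ^ 2) D C H hD1 hρ hgap rfl hg (by omega) (by omega) hn1
    (by omega) (Nat.mul_pos (by omega) (by omega)) a a (by omega) ha h1 h2 h3 hslots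

open Classical in
/-- the gap in terms of numbers of random strings -/
theorem gap_nat {n t s g : ℕ} {γ : ℝ} (hγ : 0 < γ) (hgγ : 1 / γ ≤ g)
    (C : Circuit ({p : Fin n × Fin n // p.1 < p.2} ⊕ Fin t) s) (G G' : SimpleGraph (Fin n))
    (h : acceptProb C G' + γ ≤ acceptProb C G) :
    2 ^ t ≤ g * (univ.filter (fun r : Fin t → Bool => Accepts C G r ∧ ¬ Accepts C G' r)).card := by
  have e : ∀ G : SimpleGraph (Fin n), acceptProb C G =
      ((univ.filter (fun r : Fin t → Bool => Accepts C G r)).card : ℝ) / 2 ^ t := by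
    intro G
    unfold acceptProb
    rw [Nat.card_eq_fintype_card, Fintype.card_subtype]
  rw [e, e] at h
  have h2t : (0 : ℝ) < 2 ^ t := by positivity
  have hc : (univ.filter (fun r : Fin t → Bool => Accepts C G r)).card ≤
      (univ.filter (fun r : Fin t → Bool => Accepts C G' r)).card +
      (univ.filter (fun r : Fin t → Bool => Accepts C G r ∧ ¬ Accepts C G' r)).card := by
    rw [Nat.add_comm]
    refine (card_le_card ?_).trans (card_union_le _ _)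
    intro r hr
    simp only [mem_filter, mem_univ, true_and, mem_union] at hr ⊢
    tauto
  have hcR : ((univ.filter (fun r : Fin t → Bool => Accepts C G r)).card : ℝ) ≤
      (univ.filter (fun r : Fin t → Bool => Accepts C G' r)).card +
      (univ.filter (fun r : Fin t → Bool => Accepts C G r ∧ ¬ Accepts C G' r)).card := by
    exact_mod_cast hc
  have h4 : γ * 2 ^ t ≤
      ((univ.filter (fun r : Fin t → Bool => Accepts C G r ∧ ¬ Accepts C G' r)).card : ℝ) := by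
    have h5 := mul_le_mul_of_nonneg_right h h2t.le
    rw [add_mul, div_mul_cancel₀ _ h2t.ne', div_mul_cancel₀ _ h2t.ne'] at h5
    linarith
  have h6 : (2 : ℝ) ^ t ≤ g *
      ((univ.filter (fun r : Fin t → Bool => Accepts C G r ∧ ¬ Accepts C G' r)).card : ℝ) := by
    calc (2 : ℝ) ^ t = (1 / γ) * (γ * 2 ^ t) := by field_simp
      _ ≤ g * ((univ.filter (fun r : Fin t → Bool =>
          Accepts C G r ∧ ¬ Accepts C G' r)).card : ℝ) :=
          mul_le_mul hgγ h4 (by positivity) (Nat.cast_nonneg _)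
  exact_mod_cast h6

/-- real form -/
theorem rand_real {n t s ρ : ℕ} {γ : ℝ} (hn : 1 ≤ n) (hγ : 0 < γ) (hγ1 : γ ≤ 1)
    (C : Circuit ({p : Fin n × Fin n // p.1 < p.2} ⊕ Fin t) s)
    (H : Finset {p : Fin n × Fin n // p.1 < p.2})
    (hρ : ∀ r, numNotGiven C H r ≤ ρ)
    (hgap : ∀ G G' : SimpleGraph (Fin n), HasBigClique G → ¬ HasBigClique G' →
      acceptProb C G' + γ ≤ acceptProb C G) :
    (2 : ℝ) ^ ((γ ^ 3 * H.card / 2 ^ ρ) ^ (1 / 16 : ℝ) / 4) ≤ 8 * n * s / γ := by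
  classical
  have hs : 1 ≤ s := by
    have := C.out.isLt
    omega
  by_contra hlt
  push Not at hlt
  obtain ⟨g, hg⟩ : ∃ g : ℕ, g = ⌈1 / γ⌉₊ := ⟨_, rfl⟩
  have h1γ : 1 ≤ 1 / γ := by
    rw [le_div_iff₀ hγ]
    linarith
  have hgγ : 1 / γ ≤ g := by
    rw [hg]
    exact Nat.le_ceil _
  have hg1 : 1 ≤ g := by
    have : (1 : ℝ) ≤ g := h1γ.trans hgγ
    exact_mod_cast this
  have hg2 : (g : ℝ) ≤ 2 / γ := by
    have h2 : (g : ℝ) < 1 / γ + 1 := by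
      rw [hg]
      exact Nat.ceil_lt_add_one (by positivity)
    have h3 : 2 / γ = 1 / γ + 1 / γ := by ring
    linarith
  have hnR : (1 : ℝ) ≤ n := by exact_mod_cast hn
  have hsR : (1 : ℝ) ≤ s := by exact_mod_cast hs
  set y : ℝ := γ ^ 3 * H.card / 2 ^ ρ with hy
  have hy0 : 0 ≤ y := by positivity
  set x : ℝ := y ^ (1 / 16 : ℝ) / 4 with hx
  have hx0 : 0 ≤ x := by positivity
  have h8 : (8 : ℝ) ≤ 8 * n * s / γ := by
    rw [le_div_iff₀ hγ]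
    have h5 : (1 : ℝ) ≤ n * s := by
      calc (1 : ℝ) = 1 * 1 := by ring
        _ ≤ n * s := mul_le_mul hnR hsR (by norm_num) (by linarith)
    nlinarith
  have hx3 : 3 < x := by
    by_contra hcon
    push Not at hcon
    have h2 : (2 : ℝ) ^ x ≤ (2 : ℝ) ^ (3 : ℝ) :=
      Real.rpow_le_rpow_of_exponent_le (by norm_num) hcon
    have h3 : (2 : ℝ) ^ (3 : ℝ) = 8 := by norm_num
    linarith
  set a : ℕ := ⌈x⌉₊ with ha
  have hax : x ≤ a := Nat.le_ceil x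
  have hax' : (a : ℝ) < x + 1 := Nat.ceil_lt_add_one hx0
  have ha2 : 2 ≤ a := by
    have : (3 : ℝ) < a := hx3.trans_le hax
    have : 3 < a := by exact_mod_cast this
    omega
  have h4x : (4 * x) ^ 16 = y := by
    have h5 : 4 * x = y ^ (1 / 16 : ℝ) := by rw [hx]; ring
    rw [h5, ← Real.rpow_natCast, ← Real.rpow_mul hy0]
    norm_num
  have h2 : 64 * ((2 : ℝ) * a) ^ 16 ≤ y := by
    have h2 : (2 : ℝ) * a ≤ (2 / 3) * (4 * x) := by linarith
    have h3 : ((2 : ℝ) * a) ^ 16 ≤ ((2 / 3) * (4 * x)) ^ 16 :=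
      pow_le_pow_left₀ (by positivity) h2 16
    rw [mul_pow (2 / 3 : ℝ), h4x] at h3
    have h5 : (64 : ℝ) * ((2 / 3) ^ 16 * y) ≤ y := by
      have h6 : (64 : ℝ) * (2 / 3) ^ 16 ≤ 1 := by norm_num
      calc (64 : ℝ) * ((2 / 3) ^ 16 * y) = (64 * (2 / 3) ^ 16) * y := by ring
        _ ≤ 1 * y := mul_le_mul_of_nonneg_right h6 hy0
        _ = y := one_mul _
    calc 64 * ((2 : ℝ) * a) ^ 16 ≤ 64 * ((2 / 3) ^ 16 * y) :=
          mul_le_mul_of_nonneg_left h3 (by norm_num)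
      _ ≤ y := h5
  have h2ρ : (0 : ℝ) < 2 ^ ρ := by positivity
  have hgR : (0 : ℝ) ≤ g := Nat.cast_nonneg _
  have hg3 : (g : ℝ) ^ 3 * γ ^ 3 ≤ 8 := by
    have h5 : (g : ℝ) * γ ≤ 2 := by
      have := mul_le_mul_of_nonneg_right hg2 hγ.le
      rwa [div_mul_cancel₀ _ hγ.ne'] at this
    calc (g : ℝ) ^ 3 * γ ^ 3 = (g * γ) ^ 3 := by ring
      _ ≤ 2 ^ 3 := pow_le_pow_left₀ (by positivity) h5 3
      _ = 8 := by norm_num
  have h3 : 4 * (2 * a) ^ 16 * g ^ 2 * (2 * g * 2 ^ ρ) ≤ H.card := by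
    have h4 : (4 : ℝ) * (2 * a) ^ 16 * g ^ 2 * (2 * g * 2 ^ ρ) ≤ H.card := by
      have h5 : 64 * ((2 : ℝ) * a) ^ 16 * 2 ^ ρ ≤ γ ^ 3 * H.card := by
        rw [hy, le_div_iff₀ h2ρ] at h2
        exact h2
      have h6 : (g : ℝ) ^ 3 * (64 * ((2 : ℝ) * a) ^ 16 * 2 ^ ρ) ≤
          (g : ℝ) ^ 3 * (γ ^ 3 * H.card) := mul_le_mul_of_nonneg_left h5 (by positivity)
      have h7 : (g : ℝ) ^ 3 * (γ ^ 3 * H.card) ≤ 8 * H.card := by
        calc (g : ℝ) ^ 3 * (γ ^ 3 * (H.card : ℝ)) = ((g : ℝ) ^ 3 * γ ^ 3) * (H.card : ℝ) := by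
              ring
          _ ≤ 8 * (H.card : ℝ) := mul_le_mul_of_nonneg_right hg3 (Nat.cast_nonneg _)
      have h9 : 8 * ((4 : ℝ) * (2 * a) ^ 16 * g ^ 2 * (2 * g * 2 ^ ρ)) =
          (g : ℝ) ^ 3 * (64 * ((2 : ℝ) * a) ^ 16 * 2 ^ ρ) := by ring
      linarith
    exact_mod_cast h4
  have h4 := rand_nat hn C H hρ
    (fun G G' hG hG' => gap_nat hγ hgγ C G G' (hgap G G' hG hG')) hg1 ha2 h3
  have h5 : (2 : ℝ) ^ x ≤ (2 : ℝ) ^ (a : ℝ) :=
    Real.rpow_le_rpow_of_exponent_le (by norm_num) hax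
  rw [Real.rpow_natCast] at h5
  have h6 : ((2 ^ a : ℕ) : ℝ) ≤ ((4 * g * n * s : ℕ) : ℝ) := by exact_mod_cast h4
  push_cast at h6
  have h7 : (4 : ℝ) * g * n * s ≤ 8 * n * s / γ := by
    have h8 : (4 : ℝ) * g * n * s = g * (4 * n * s) := by ring
    have h9 : 8 * n * s / γ = 2 / γ * (4 * n * s) := by ring
    rw [h8, h9]
    exact mul_le_mul_of_nonneg_right hg2 (by positivity)
  linarith

end Pool.Agent.RandomCircuits
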