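import Pool.Agent.Lib.MP_0a1b52_lc.Defs4
import Pool.Agent.Lib.MP_b573ec_lc.Defs

/-!
Randomized circuits with oracles deciding the clique problem.
-/

set_option autoImplicit false

namespace Pool.Agent.RandomCircuits

open Pool.Agent.CliqueCircuits

/-- For the random string `r`, the circuit `C r` with the oracles `φ r`, `ψ r` accepts the graph
`G`. Its inputs are the edge variables, the values of the `φ r i` and the values of the `ψ r i`. -/
def AcceptsO {n b s t u : ℕ}
    (C : (Fin b → Bool) → Circuit ({p : Fin n × Fin n // p.1 < p.2} ⊕ (Fin t ⊕ Fin u)) s)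
    (φ : (Fin b → Bool) → Fin t → ({p : Fin n × Fin n // p.1 < p.2} → Prop) → Prop)
    (ψ : (Fin b → Bool) → Fin u → ({p : Fin n × Fin n // p.1 < p.2} → Prop) → Prop)
    (G : SimpleGraph (Fin n)) (r : Fin b → Bool) : Prop :=
  ∃ val : Fin s → Prop,
    (C r).IsEval (withOracles (φ r) (ψ r) (fun e => G.Adj e.1.1 e.1.2)) val ∧ val (C r).out

/-- The probability of accepting `G`, over a uniformly distributed random string of `b` bits. -/
noncomputable def acceptProbO {n b s t u : ℕ}
    (C : (Fin b → Bool) → Circuit ({p : Fin n × Fin n // p.1 < p.2} ⊕ (Fin t ⊕ Fin u)) s)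
    (φ : (Fin b → Bool) → Fin t → ({p : Fin n × Fin n // p.1 < p.2} → Prop) → Prop)
    (ψ : (Fin b → Bool) → Fin u → ({p : Fin n × Fin n // p.1 < p.2} → Prop) → Prop)
    (G : SimpleGraph (Fin n)) : ℝ :=
  (Nat.card {r : Fin b → Bool // AcceptsO C φ ψ G r} : ℝ) / 2 ^ b

end Pool.Agent.RandomCircuits
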