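import Pool.Agent.Lib.MP_b573ec_lc.Final
import Pool.Agent.Lib.MP_b573ec_lc.OracleDefs
import Pool.Agent.Lib.MP_0a1b52_lc.Oracle

/-!
The counting form of the chain theorem for monotone circuits with antitone oracles.
-/

set_option autoImplicit false

namespace Pool.Agent.RandomCircuits

open Finset Pool.Agent.CliqueCircuits

section Chain

variable {V : Type} {s t u L k m K : ℕ}

/-- If the test is good and the oracles do not change, acceptance is inherited. -/
theorem acc_stepE (C : Circuit (V ⊕ (Fin t ⊕ Fin u)) s)
    (hnot : ∀ i, C.kind i ≠ GateKind.not) (F : OrFamily V L k m K)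
    (φ : Fin t → (V → Prop) → Prop) (ψ : Fin u → (V → Prop) → Prop)
    (hφ : ∀ i st st', (∀ v, F.asg st v → F.asg st' v) → φ i (F.asg st') → φ i (F.asg st))
    (hψ : ∀ i st st', ψ i (F.asg st) → ψ i (F.asg st'))
    (c : Fin L → Fin k × Fin m → Fin K) (p : Fin k → Fin m) (j : Fin L)
    (hgood : GoodE C F φ ψ (fun _ => p) c j)
    (hj : ∀ i, φ i (F.asg (stN c j.val)) → φ i (F.asg (stN c (j.val + 1))))
    (hacc : Acc C (withOracles φ ψ (F.asg (Function.update (stN c j.val) j (OState.tr p))))) :
    Acc C (withOracles φ ψ (F.asg (stN c (j.val + 1)))) := by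
  obtain ⟨valP, hvP, hout⟩ := hacc
  have hNP : ∀ v, F.asg (stN c j) v →
      F.asg (Function.update (stN c j) j (OState.tr p)) v := by
    intro v hv
    refine F.mono _ _ ?_ v hv
    intro i u u' h
    by_cases hi : i = j
    · subst hi
      simp only [stN] at h
      rw [if_neg (lt_irrefl _)] at h
      exact absurd h (by simp [OState.rel])
    · rw [Function.update_of_ne hi]
      exact h
  obtain ⟨valP', hvP'⟩ := C.exists_eval (frz (F.asg (Function.update (stN c j) j (OState.tr p)))
      (fun i => φ i (F.asg (stN c j))) (fun i => ψ i (F.asg (stN c j))))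
  obtain ⟨valN', hvN'⟩ := C.exists_eval (frz (F.asg (stN c (j.val + 1)))
      (fun i => φ i (F.asg (stN c j))) (fun i => ψ i (F.asg (stN c j))))
  obtain ⟨valN, hvN⟩ := C.exists_eval (withOracles φ ψ (F.asg (stN c (j.val + 1))))
  have o1 : valP' C.out := by
    refine hvP.mono_out hnot hvP' ?_ hout
    intro v hv
    rcases v with v | v | v
    · exact hv
    · exact hφ v _ _ hNP hv
    · exact hψ v _ _ hv
  have o2 : valN' C.out := hgood valP' valN' hvP' hvN' o1
  refine ⟨valN, hvN, hvN'.mono_out hnot hvN ?_ o2⟩
  intro v hv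
  rcases v with v | v | v
  · exact hv
  · exact hj v hv
  · exact hψ v _ _ hv

open Classical in
/-- For every step, few pairs are bad tests. -/
theorem count_notgoodE (C : Circuit (V ⊕ (Fin t ⊕ Fin u)) s)
    (hnot : ∀ i, C.kind i ≠ GateKind.not) (F : OrFamily V L k m K)
    (φ : Fin t → (V → Prop) → Prop) (ψ : Fin u → (V → Prop) → Prop)
    (q l g : ℕ) (hq : 1 ≤ q) (hl : 2 ≤ l)
    (hKpos : 0 < K) (hmpos : 0 < m)
    (h1 : 8 * g * (s * (l * l) ^ (q + 1)) ≤ K ^ (q + 1))
    (h2 : 8 * g * (s * q ^ (l + 1)) ≤ m ^ (l + 1))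
    (h3 : 4 * g * q ^ 2 < m ^ 2) (j : Fin L) :
    2 * g * ∑ c : Fin L → Fin k × Fin m → Fin K,
        (univ.filter (fun p : Fin k → Fin m => ¬ GoodE C F φ ψ (fun _ => p) c j)).card ≤
      Fintype.card (Fin L → Fin k × Fin m → Fin K) * m ^ k := by
  have hXcard : Fintype.card (Fin k × Fin m → Fin K) = K ^ (k * m) := by
    rw [Fintype.card_fun, Fintype.card_fin, Fintype.card_prod, Fintype.card_fin, Fintype.card_fin]
  have hPcard : Fintype.card (Fin k → Fin m) = m ^ k := by
    rw [Fintype.card_fun, Fintype.card_fin, Fintype.card_fin]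
  have hXpos : 0 < K ^ (k * m) := pow_pos hKpos _
  have hA : ∀ c : Fin L → Fin k × Fin m → Fin K,
      2 * g * ∑ x : Fin k × Fin m → Fin K, (univ.filter (fun p : Fin k → Fin m =>
        ¬ GoodE C F φ ψ (fun _ => p) (Function.update c j x) j)).card ≤
          K ^ (k * m) * m ^ k := by
    intro c
    obtain ⟨τ, hτ, hτP, hτN⟩ := F.loc (stN c j) j
    let bφ : Fin t → Prop := fun i => φ i (F.asg (stN c j))
    let bψ : Fin u → Prop := fun i => ψ i (F.asg (stN c j))
    let τ' : V ⊕ (Fin t ⊕ Fin u) → InTy (Fin k × Fin m) :=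
      Sum.elim τ (Sum.elim (fun i => if bφ i then InTy.tt else InTy.ff)
        (fun i => if bψ i then InTy.tt else InTy.ff))
    have hτ' : ∀ v u u', τ' v = InTy.pair u u' → u ≠ u' := by
      intro v u u' h
      rcases v with v | v | v
      · exact hτ v u u' h
      · simp only [τ', Sum.elim_inr, Sum.elim_inl] at h
        split_ifs at h
      · simp only [τ', Sum.elim_inr] at h
        split_ifs at h
    obtain ⟨BadP, BadN, hBP, hBN, hgood⟩ :=
      count_core C K 0 ∅ (by simp) q l g hq hl hKpos hmpos h1 h2 (by simpa using h3) τ' hτ'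
        (fun _ => False)
    have hstc : ∀ x, stN (Function.update c j x) j.val = stN c j.val := by
      intro x
      refine stN_congr _ _ _ ?_
      intro i hi
      rw [Function.update_of_ne]
      intro h
      rw [h] at hi
      exact lt_irrefl _ hi
    have hgx : ∀ x ∉ BadN, ∀ p ∉ BadP,
        GoodE C F φ ψ (fun _ => p) (Function.update c j x) j := by
      intro x hx p hp
      unfold GoodE
      intro valP valN hvP hvN hout
      rw [stN_succ] at hvN
      rw [hstc] at hvP hvN
      rw [Function.update_self] at hvN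
      have hxP : (fun v => (τ' v).pos p) =
          frz (F.asg (Function.update (stN c j) j (OState.tr p))) bφ bψ := by
        funext v
        rcases v with v | v | v
        · exact propext (hτP p v)
        · by_cases hb : bφ v
          · simp [τ', frz, hb, InTy.pos]
          · simp [τ', frz, hb, InTy.pos]
        · by_cases hb : bψ v
          · simp [τ', frz, hb, InTy.pos]
          · simp [τ', frz, hb, InTy.pos]
      have hxN : (fun v => (τ' v).neg x) =
          frz (F.asg (Function.update (stN c j) j (OState.col x))) bφ bψ := by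
        funext v
        rcases v with v | v | v
        · exact propext (hτN x v)
        · by_cases hb : bφ v
          · simp [τ', frz, hb, InTy.neg]
          · simp [τ', frz, hb, InTy.neg]
        · by_cases hb : bψ v
          · simp [τ', frz, hb, InTy.neg]
          · simp [τ', frz, hb, InTy.neg]
      have h := hgood p hp x hx valP valN
      rw [hxP, hxN] at h
      exact h (hvP.toFrozen hnot _) (hvN.toFrozen hnot _) (Sum.inr C.out) (Or.inl rfl) hout
    have hle : ∀ x : Fin k × Fin m → Fin K, (univ.filter (fun p : Fin k → Fin m =>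
        ¬ GoodE C F φ ψ (fun _ => p) (Function.update c j x) j)).card ≤
          BadP.card + (if x ∈ BadN then m ^ k else 0) := by
      intro x
      by_cases hx : x ∈ BadN
      · rw [if_pos hx]
        calc _ ≤ (univ : Finset (Fin k → Fin m)).card := card_le_card (filter_subset _ _)
          _ = m ^ k := by rw [card_univ, hPcard]
          _ ≤ _ := Nat.le_add_left _ _
      · rw [if_neg hx, add_zero]
        refine card_le_card ?_
        intro p hp
        rw [mem_filter] at hp
        by_contra hpB
        exact hp.2 (hgx x hx p hpB)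
    calc 2 * g * ∑ x : Fin k × Fin m → Fin K, (univ.filter (fun p : Fin k → Fin m =>
        ¬ GoodE C F φ ψ (fun _ => p) (Function.update c j x) j)).card
        ≤ 2 * g * ∑ x : Fin k × Fin m → Fin K,
            (BadP.card + (if x ∈ BadN then m ^ k else 0)) :=
          Nat.mul_le_mul_left _ (sum_le_sum fun x _ => hle x)
      _ = 2 * g * (K ^ (k * m) * BadP.card + BadN.card * m ^ k) := by
          rw [sum_add_distrib, sum_const, card_univ, hXcard, smul_eq_mul, sum_ite_mem,
            univ_inter, sum_const, smul_eq_mul]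
      _ ≤ K ^ (k * m) * m ^ k := by
          have e1 : 4 * (2 * g * (K ^ (k * m) * BadP.card + BadN.card * m ^ k)) =
              K ^ (k * m) * (8 * g * BadP.card) + (8 * g * BadN.card) * m ^ k := by ring
          have e2 : K ^ (k * m) * (8 * g * BadP.card) ≤ K ^ (k * m) * (3 * m ^ k) :=
            Nat.mul_le_mul_left _ hBP.le
          have e3 : (8 * g * BadN.card) * m ^ k ≤ K ^ (k * m) * m ^ k :=
            Nat.mul_le_mul_right _ hBN
          have e4 : K ^ (k * m) * (3 * m ^ k) = 3 * (K ^ (k * m) * m ^ k) := by ring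
          omega
  refine le_of_mul_le_mul_left (a := K ^ (k * m)) ?_ hXpos
  have hB := sum_update j (fun c : Fin L → Fin k × Fin m → Fin K =>
    (univ.filter (fun p : Fin k → Fin m => ¬ GoodE C F φ ψ (fun _ => p) c j)).card)
  rw [hXcard] at hB
  calc K ^ (k * m) * (2 * g * ∑ c : Fin L → Fin k × Fin m → Fin K,
        (univ.filter (fun p : Fin k → Fin m => ¬ GoodE C F φ ψ (fun _ => p) c j)).card)
      = 2 * g * (K ^ (k * m) * ∑ c : Fin L → Fin k × Fin m → Fin K,
        (univ.filter (fun p : Fin k → Fin m => ¬ GoodE C F φ ψ (fun _ => p) c j)).card) := by ring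
    _ = ∑ c : Fin L → Fin k × Fin m → Fin K, 2 * g * ∑ x : Fin k × Fin m → Fin K,
        (univ.filter (fun p : Fin k → Fin m =>
          ¬ GoodE C F φ ψ (fun _ => p) (Function.update c j x) j)).card := by
        rw [← hB, mul_sum]
    _ ≤ ∑ _c : Fin L → Fin k × Fin m → Fin K, K ^ (k * m) * m ^ k :=
        sum_le_sum fun c _ => hA c
    _ = K ^ (k * m) * (Fintype.card (Fin L → Fin k × Fin m → Fin K) * m ^ k) := by
        rw [sum_const, card_univ, smul_eq_mul]
        ring

open Classical in
/-- The counting form of the chain theorem with antitone oracles. -/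
theorem chain_countE (C : Circuit (V ⊕ (Fin t ⊕ Fin u)) s)
    (hnot : ∀ i, C.kind i ≠ GateKind.not) (F : OrFamily V L k m K)
    (φ : Fin t → (V → Prop) → Prop) (ψ : Fin u → (V → Prop) → Prop)
    (hφ : ∀ i st st', (∀ v, F.asg st v → F.asg st' v) → φ i (F.asg st') → φ i (F.asg st))
    (hψ : ∀ i st st', ψ i (F.asg st) → ψ i (F.asg st'))
    (q l g : ℕ) (hq : 1 ≤ q) (hl : 2 ≤ l)
    (hKpos : 0 < K) (hmpos : 0 < m)
    (h1 : 8 * g * (s * (l * l) ^ (q + 1)) ≤ K ^ (q + 1))
    (h2 : 8 * g * (s * q ^ (l + 1)) ≤ m ^ (l + 1))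
    (h3 : 4 * g * q ^ 2 < m ^ 2) :
    2 * g * (univ.filter (fun z : Fin L × (Fin L → Fin k × Fin m → Fin K) × (Fin k → Fin m) =>
        Acc C (withOracles φ ψ (F.asg (Function.update (stN z.2.1 z.1.val) z.1
          (OState.tr z.2.2)))) ∧
        ¬ Acc C (withOracles φ ψ (F.asg (stN z.2.1 (z.1.val + 1)))))).card ≤
      (2 * g * t + L) * (Fintype.card (Fin L → Fin k × Fin m → Fin K) * m ^ k) := by
  let X := Fin L → Fin k × Fin m → Fin K
  let P := Fin k → Fin m
  have hPcard : Fintype.card (Fin k → Fin m) = m ^ k := by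
    rw [Fintype.card_fun, Fintype.card_fin, Fintype.card_fin]
  let Ch : X → ℕ → Prop := fun c j =>
    ¬ ∀ i, φ i (F.asg (stN c j)) → φ i (F.asg (stN c (j + 1)))
  have hx : ∀ (c : X) (j : ℕ) v, F.asg (stN c j) v → F.asg (stN c (j + 1)) v := by
    intro c j v hv
    refine F.mono _ _ ?_ v hv
    intro i u u' h
    simp only [stN] at h ⊢
    by_cases hi : i.val < j
    · rw [if_pos hi] at h
      rw [if_pos (by omega)]
      exact h
    · rw [if_neg hi] at h
      exact absurd h (by simp [OState.rel])
  have hx' : ∀ (c : X) (d j : ℕ) v, F.asg (stN c j) v → F.asg (stN c (j + d)) v := by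
    intro c d
    induction d with
    | zero => intro j v hv; exact hv
    | succ d ih => intro j v hv; exact hx c _ v (ih j v hv)
  have hmk : ∀ c : X, ((range L).filter (fun j => Ch c j)).card ≤ t := by
    intro c
    have hch : ∀ j, Ch c j → ∃ i, φ i (F.asg (stN c j)) ∧ ¬ φ i (F.asg (stN c (j + 1))) := by
      intro j hj
      by_contra hcon
      push Not at hcon
      exact hj hcon
    have hcard : ((range L).filter (fun j => Ch c j)).card ≤ (univ : Finset (Fin t)).card := by
      rcases Nat.eq_zero_or_pos t with ht | ht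
      · have hempty : (range L).filter (fun j => Ch c j) = ∅ := by
          rw [filter_eq_empty_iff]
          intro j _ hj
          obtain ⟨i, _⟩ := hch j hj
          exact absurd i.isLt (by omega)
        rw [hempty]
        simp
      · refine card_le_card_of_injOn
          (fun j => if hj : Ch c j then (hch j hj).choose else ⟨0, ht⟩) (fun _ _ => by simp) ?_
        intro a ha a' ha' haa
        simp only [coe_filter, mem_range, Set.mem_ofPred_eq] at ha ha'
        simp only [dif_pos ha.2, dif_pos ha'.2] at haa
        have e1 := (hch a ha.2).choose_spec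
        have e2 := (hch a' ha'.2).choose_spec
        by_contra hne
        rcases lt_or_gt_of_ne hne with h | h
        · apply e1.2
          rw [haa]
          refine hφ _ _ _ ?_ e2.1
          intro v hv
          have := hx' c (a' - (a + 1)) (a + 1) v hv
          rwa [Nat.add_sub_cancel' (by omega)] at this
        · apply e2.2
          rw [← haa]
          refine hφ _ _ _ ?_ e1.1
          intro v hv
          have := hx' c (a - (a' + 1)) (a' + 1) v hv
          rwa [Nat.add_sub_cancel' (by omega)] at this
    rwa [card_univ, Fintype.card_fin] at hcard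
  -- the two parts
  let B : Finset (Fin L × X × P) := univ.filter (fun z =>
        Acc C (withOracles φ ψ (F.asg (Function.update (stN z.2.1 z.1.val) z.1
          (OState.tr z.2.2)))) ∧
        ¬ Acc C (withOracles φ ψ (F.asg (stN z.2.1 (z.1.val + 1)))))
  let B1 : Finset (Fin L × X × P) := univ.filter (fun z => Ch z.2.1 z.1.val)
  let B2 : Finset (Fin L × X × P) := univ.filter (fun z =>
    ¬ GoodE C F φ ψ (fun _ => z.2.2) z.2.1 z.1)
  have hsub : B ⊆ B1 ∪ B2 := by
    intro z hz
    simp only [B, B1, B2, mem_filter, mem_univ, true_and, mem_union] at hz ⊢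
    by_contra hcon
    rw [not_or, not_not] at hcon
    obtain ⟨hc1, hc2⟩ := hcon
    exact hz.2 (acc_stepE C hnot F φ ψ hφ hψ z.2.1 z.2.2 z.1 (not_not.1 hc2) hc1 hz.1)
  have hB1 : B1.card ≤ t * (Fintype.card X * m ^ k) := by
    have e1 : B1.card = ∑ c : X, ∑ _p : P, (univ.filter (fun j : Fin L => Ch c j.val)).card := by
      simp only [B1, card_filter]
      rw [Fintype.sum_prod_type, sum_comm, Fintype.sum_prod_type]
    rw [e1]
    calc ∑ c : X, ∑ _p : P, (univ.filter (fun j : Fin L => Ch c j.val)).card
        ≤ ∑ c : X, ∑ _p : P, t := by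
          refine sum_le_sum fun c _ => sum_le_sum fun p _ => ?_
          refine le_trans ?_ (hmk c)
          refine card_le_card_of_injOn (fun j : Fin L => j.val) ?_ ?_
          · intro j hj
            simp only [coe_filter, mem_univ, true_and, Set.mem_ofPred_eq, mem_range] at hj ⊢
            exact ⟨j.isLt, hj⟩
          · intro j _ j' _ h
            exact Fin.ext h
      _ = t * (Fintype.card X * m ^ k) := by
          rw [sum_const, sum_const, card_univ, card_univ, smul_eq_mul, smul_eq_mul, hPcard]
          ring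
  have hB2 : 2 * g * B2.card ≤ L * (Fintype.card X * m ^ k) := by
    have e1 : B2.card = ∑ j : Fin L, ∑ c : X,
        (univ.filter (fun p : P => ¬ GoodE C F φ ψ (fun _ => p) c j)).card := by
      simp only [B2, card_filter]
      rw [Fintype.sum_prod_type]
      refine sum_congr rfl fun j _ => ?_
      rw [Fintype.sum_prod_type]
    rw [e1, mul_sum]
    calc ∑ j : Fin L, 2 * g * ∑ c : X,
        (univ.filter (fun p : P => ¬ GoodE C F φ ψ (fun _ => p) c j)).card
        ≤ ∑ _j : Fin L, Fintype.card X * m ^ k :=
          sum_le_sum fun j _ =>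
            count_notgoodE C hnot F φ ψ q l g hq hl hKpos hmpos h1 h2 h3 j
      _ = L * (Fintype.card X * m ^ k) := by
          rw [sum_const, card_univ, Fintype.card_fin, smul_eq_mul]
  calc 2 * g * B.card ≤ 2 * g * (B1.card + B2.card) :=
        Nat.mul_le_mul_left _ ((card_le_card hsub).trans (card_union_le _ _))
    _ = 2 * g * B1.card + 2 * g * B2.card := by ring
    _ ≤ 2 * g * (t * (Fintype.card X * m ^ k)) + L * (Fintype.card X * m ^ k) :=
        add_le_add (Nat.mul_le_mul_left _ hB1) hB2
    _ = (2 * g * t + L) * (Fintype.card X * m ^ k) := by ring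

end Chain

end Pool.Agent.RandomCircuits
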