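import Pool.Agent.Lib.MP_b573ec_lc.OracleCount

/-!
Lower bound for randomized monotone circuits with antitone oracles deciding the clique problem.
-/

set_option autoImplicit false

namespace Pool.Agent.RandomCircuits

open Finset Pool.Agent.CliqueCircuits

section

variable {n b s t u L k m K e : ℕ}

theorem acceptsO_iff
    (C : (Fin b → Bool) → Circuit ({p : Fin n × Fin n // p.1 < p.2} ⊕ (Fin t ⊕ Fin u)) s)
    (φ : (Fin b → Bool) → Fin t → ({p : Fin n × Fin n // p.1 < p.2} → Prop) → Prop)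
    (ψ : (Fin b → Bool) → Fin u → ({p : Fin n × Fin n // p.1 < p.2} → Prop) → Prop)
    (G : SimpleGraph (Fin n)) (r : Fin b → Bool) :
    AcceptsO C φ ψ G r ↔ Acc (C r) (withOracles (φ r) (ψ r) (fun e => G.Adj e.1.1 e.1.2)) := by
  constructor
  · rintro ⟨val, h1, h2⟩
    exact ⟨val, ((C r).isEval_iff _ _).1 h1, h2⟩
  · rintro ⟨val, h1, h2⟩
    exact ⟨val, ((C r).isEval_iff _ _).2 h1, h2⟩

open Classical in
theorem oracle_rand_finite {g : ℕ} (D : RoleData n L k m e)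
    (C : (Fin b → Bool) → Circuit ({p : Fin n × Fin n // p.1 < p.2} ⊕ (Fin t ⊕ Fin u)) s)
    (hnot : ∀ r i, (C r).kind i ≠ GateKind.not)
    (φ : (Fin b → Bool) → Fin t → ({p : Fin n × Fin n // p.1 < p.2} → Prop) → Prop)
    (ψ : (Fin b → Bool) → Fin u → ({p : Fin n × Fin n // p.1 < p.2} → Prop) → Prop)
    (H : Finset {p : Fin n × Fin n // p.1 < p.2})
    (hφ : ∀ r i, AntitoneIn H (φ r i)) (hψ : ∀ r i, IndependentOf H (ψ r i))
    (hvarH : ∀ j ξ, HR H (D.zc j (D.π ξ)) (D.wl j ξ))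
    (hgap : ∀ G G' : SimpleGraph (Fin n), HasBigClique G → ¬ HasBigClique G' →
      2 ^ b ≤ g * (univ.filter (fun r : Fin b → Bool =>
        AcceptsO C φ ψ G r ∧ ¬ AcceptsO C φ ψ G' r)).card)
    (hL : L = 2 * g * (t + 1)) (hg : 1 ≤ g) (hK : K < k) (hk2 : 2 ≤ k) (hn : 1 ≤ n)
    (hKpos : 0 < K) (hmpos : 0 < m)
    (q l : ℕ) (hq : 1 ≤ q) (hl : 2 ≤ l)
    (h1 : 8 * g * (s * (l * l) ^ (q + 1)) ≤ K ^ (q + 1))
    (h2 : 8 * g * (s * q ^ (l + 1)) ≤ m ^ (l + 1))
    (h3 : 4 * g * q ^ 2 < m ^ 2)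
    (hslots : D.slots = Nat.sqrt n + 1) : False := by
  have hedH : ∀ (ed : {p : Fin n × Fin n // p.1 < p.2}) ξ, D.IsVar ξ ed.1.1 ed.1.2 →
      ed ∈ H := by
    intro ed ξ hv
    refine (hvarH ξ.1 ξ.2).mem ed ?_
    rcases hv with ⟨a, b⟩ | ⟨a, b⟩
    · left; exact ⟨a.symm, b.symm⟩
    · right; exact ⟨a.symm, b.symm⟩
  let F : OrFamily {p : Fin n × Fin n // p.1 < p.2} L k m K := D.family
  have hagree : ∀ st st' v, v ∉ H → (F.asg st v ↔ F.asg st' v) := by
    intro st st' ed hed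
    constructor
    · exact D.adj_congr (fun ξ hξ => absurd (hedH ed ξ hξ) hed)
    · exact D.adj_congr (fun ξ hξ => absurd (hedH ed ξ hξ) hed)
  -- graphs
  let GP : Fin L × (Fin L → Fin k × Fin m → Fin K) × (Fin k → Fin m) → SimpleGraph (Fin n) :=
    fun z => D.graph (xOfO (K := K) (Function.update (stN z.2.1 z.1.val) z.1 (OState.tr z.2.2)))
  let GN : Fin L × (Fin L → Fin k × Fin m → Fin K) × (Fin k → Fin m) → SimpleGraph (Fin n) :=
    fun z => D.graph (xOfO (stN z.2.1 (z.1.val + 1)))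
  have hyes : ∀ z, HasBigClique (GP z) := by
    intro z
    obtain ⟨S, hS, hcard⟩ := D.clique_of_tr
      (Function.update (stN z.2.1 z.1.val) z.1 (OState.tr (K := K) z.2.2)) z.1 z.2.2 (by simp)
    refine ⟨S, hS, ?_⟩
    rw [hcard, hslots]
    push_cast
    exact Real.real_sqrt_lt_nat_sqrt_succ
  have hno : ∀ z, ¬ HasBigClique (GN z) := by
    rintro z ⟨S, hS, hcardS⟩
    have hsqrt : (Nat.sqrt n : ℝ) ≤ Real.sqrt n := Real.nat_sqrt_le_real_sqrt
    have hcard' : Nat.sqrt n < S.card := by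
      have : (Nat.sqrt n : ℝ) < (S.card : ℝ) := hsqrt.trans_lt hcardS
      exact_mod_cast this
    have hsq1 : 1 ≤ Nat.sqrt n := Nat.sqrt_pos.2 hn
    refine D.no_clique (stN z.2.1 (z.1.val + 1)) hK hk2 ?_ S hS (by rw [hslots]; exact hcard')
      (by omega)
    intro i
    simp only [stN]
    by_cases hi : i.val < z.1.val + 1
    · right
      exact ⟨z.2.1 i, by rw [if_pos hi]⟩
    · left
      rw [if_neg hi]
  -- the number of bad triples for each random string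
  let T : ℕ := Fintype.card (Fin L → Fin k × Fin m → Fin K) * m ^ k
  have hTpos : 0 < T := by
    refine Nat.mul_pos ?_ (pow_pos hmpos _)
    rw [Fintype.card_pos_iff]
    exact ⟨fun _ _ => ⟨0, hKpos⟩⟩
  have hup : ∀ r : Fin b → Bool, g * (univ.filter (fun z =>
      AcceptsO C φ ψ (GP z) r ∧ ¬ AcceptsO C φ ψ (GN z) r)).card < L * T := by
    intro r
    have h := chain_countE (C r) (hnot r) F (φ r) (ψ r)
      (fun i st st' h => hφ r i _ _ (hagree st st') h)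
      (fun i st st' => (hψ r i _ _ (hagree st st')).1) q l g hq hl hKpos hmpos h1 h2 h3
    have hfil : (univ.filter (fun z => AcceptsO C φ ψ (GP z) r ∧ ¬ AcceptsO C φ ψ (GN z) r)) =
        (univ.filter (fun z : Fin L × (Fin L → Fin k × Fin m → Fin K) × (Fin k → Fin m) =>
          Acc (C r) (withOracles (φ r) (ψ r)
            (F.asg (Function.update (stN z.2.1 z.1.val) z.1 (OState.tr z.2.2)))) ∧
          ¬ Acc (C r) (withOracles (φ r) (ψ r) (F.asg (stN z.2.1 (z.1.val + 1)))))) := by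
      refine filter_congr fun z _ => ?_
      rw [acceptsO_iff, acceptsO_iff]
      exact Iff.rfl
    rw [hfil]
    have e0 : (2 * g * t + L) * T < 2 * (L * T) := by
      have : 2 * g * t < L := by
        rw [hL]
        exact Nat.mul_lt_mul_of_pos_left (Nat.lt_succ_self t) (by omega)
      calc (2 * g * t + L) * T < (L + L) * T := Nat.mul_lt_mul_of_pos_right (by omega) hTpos
        _ = 2 * (L * T) := by ring
    have e2 : 2 * g * (univ.filter (fun z : Fin L × (Fin L → Fin k × Fin m → Fin K) ×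
          (Fin k → Fin m) =>
          Acc (C r) (withOracles (φ r) (ψ r)
            (F.asg (Function.update (stN z.2.1 z.1.val) z.1 (OState.tr z.2.2)))) ∧
          ¬ Acc (C r) (withOracles (φ r) (ψ r) (F.asg (stN z.2.1 (z.1.val + 1)))))).card =
        2 * (g * (univ.filter (fun z : Fin L × (Fin L → Fin k × Fin m → Fin K) ×
          (Fin k → Fin m) =>
          Acc (C r) (withOracles (φ r) (ψ r)
            (F.asg (Function.update (stN z.2.1 z.1.val) z.1 (OState.tr z.2.2)))) ∧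
          ¬ Acc (C r) (withOracles (φ r) (ψ r) (F.asg (stN z.2.1 (z.1.val + 1)))))).card) := by
      ring
    have h' := h
    rw [e2] at h'
    have h'' := lt_of_le_of_lt h' e0
    omega
  -- double counting
  have hdc : ∑ r : Fin b → Bool, (univ.filter (fun z =>
      AcceptsO C φ ψ (GP z) r ∧ ¬ AcceptsO C φ ψ (GN z) r)).card =
      ∑ z, (univ.filter (fun r : Fin b → Bool =>
        AcceptsO C φ ψ (GP z) r ∧ ¬ AcceptsO C φ ψ (GN z) r)).card := by
    simp only [card_filter]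
    exact sum_comm
  have hcardz : Fintype.card (Fin L × (Fin L → Fin k × Fin m → Fin K) × (Fin k → Fin m)) =
      L * T := by
    rw [Fintype.card_prod, Fintype.card_prod, Fintype.card_fin,
      Fintype.card_fun (α := Fin k), Fintype.card_fin, Fintype.card_fin]
  have hlow : 2 ^ b * (L * T) ≤ g * ∑ z, (univ.filter (fun r : Fin b → Bool =>
        AcceptsO C φ ψ (GP z) r ∧ ¬ AcceptsO C φ ψ (GN z) r)).card := by
    rw [mul_sum]
    calc 2 ^ b * (L * T) = ∑ _z : Fin L × (Fin L → Fin k × Fin m → Fin K) × (Fin k → Fin m),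
          2 ^ b := by
          rw [sum_const, card_univ, hcardz, smul_eq_mul, Nat.mul_comm]
      _ ≤ _ := sum_le_sum fun z _ => hgap _ _ (hyes z) (hno z)
  have hhigh : g * ∑ r : Fin b → Bool, (univ.filter (fun z =>
      AcceptsO C φ ψ (GP z) r ∧ ¬ AcceptsO C φ ψ (GN z) r)).card < 2 ^ b * (L * T) := by
    rw [mul_sum]
    calc ∑ r : Fin b → Bool, g * (univ.filter (fun z =>
          AcceptsO C φ ψ (GP z) r ∧ ¬ AcceptsO C φ ψ (GN z) r)).card
        < ∑ _r : Fin b → Bool, L * T :=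
          sum_lt_sum_of_nonempty univ_nonempty fun r _ => hup r
      _ = 2 ^ b * (L * T) := by
          rw [sum_const, card_univ, smul_eq_mul, Fintype.card_fun, Fintype.card_fin,
            Fintype.card_bool]
  rw [hdc] at hhigh
  exact absurd (hlow.trans_lt hhigh) (lt_irrefl _)

open Classical in
/-- natural-number form -/
theorem oracle_rand_nat {g a : ℕ} (hn1 : 1 ≤ n)
    (C : (Fin b → Bool) → Circuit ({p : Fin n × Fin n // p.1 < p.2} ⊕ (Fin t ⊕ Fin u)) s)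
    (hnot : ∀ r i, (C r).kind i ≠ GateKind.not)
    (φ : (Fin b → Bool) → Fin t → ({p : Fin n × Fin n // p.1 < p.2} → Prop) → Prop)
    (ψ : (Fin b → Bool) → Fin u → ({p : Fin n × Fin n // p.1 < p.2} → Prop) → Prop)
    (H : Finset {p : Fin n × Fin n // p.1 < p.2})
    (hφ : ∀ r i, AntitoneIn H (φ r i)) (hψ : ∀ r i, IndependentOf H (ψ r i))
    (hgap : ∀ G G' : SimpleGraph (Fin n), HasBigClique G → ¬ HasBigClique G' →
      2 ^ b ≤ g * (univ.filter (fun r : Fin b → Bool =>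
        AcceptsO C φ ψ G r ∧ ¬ AcceptsO C φ ψ G' r)).card)
    (hg : 1 ≤ g) (ha : 2 ≤ a)
    (hh : 4 * (2 * a) ^ 16 * g ^ 2 * (2 * g * (t + 1)) ≤ H.card) :
    2 ^ a ≤ 4 * g * n * s := by
  by_contra hlt
  push Not at hlt
  have hspos : 1 ≤ s := by
    have := (C (fun _ => true)).out.isLt
    omega
  have hn2a : n < 2 ^ a := by
    refine lt_of_le_of_lt ?_ hlt
    calc n = 1 * 1 * n * 1 := by ring
      _ ≤ 4 * g * n * s := by gcongr; norm_num
  have hs : 4 * g * s < 2 ^ a := by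
    refine lt_of_le_of_lt ?_ hlt
    calc 4 * g * s = 4 * g * 1 * s := by ring
      _ ≤ 4 * g * n * s := by gcongr
  have hL1 : 1 ≤ 2 * g * (t + 1) := Nat.mul_pos (by omega) (by omega)
  obtain ⟨c, e, D, hc1, hc3, hD1, hslots⟩ := gadget_general H ha hg hn2a hL1 hh
  have ha2 : 4 ≤ a ^ 2 := by nlinarith
  have h3 : 4 * g * a ^ 2 < (a * c) ^ 2 := by
    calc 4 * g * a ^ 2 ≤ 8 * g * a * a ^ 2 := by
          refine Nat.mul_le_mul_right _ ?_
          calc 4 * g ≤ 4 * g * (2 * a) := Nat.le_mul_of_pos_right _ (by omega)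
            _ = 8 * g * a := by ring
      _ < c * c * a ^ 2 := Nat.mul_lt_mul_of_pos_right hc1 (by omega)
      _ = (a * c) ^ 2 := by ring
  have hs' : 8 * g * s ≤ 2 ^ (a + 1) := by
    rw [pow_succ]
    have : 8 * g * s = 4 * g * s * 2 := by ring
    omega
  have h1 : 8 * g * (s * (a * a) ^ (a + 1)) ≤ (2 * a ^ 2) ^ (a + 1) := by
    calc 8 * g * (s * (a * a) ^ (a + 1)) = (8 * g * s) * (a * a) ^ (a + 1) := by ring
      _ ≤ 2 ^ (a + 1) * (a * a) ^ (a + 1) := Nat.mul_le_mul_right _ hs'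
      _ = (2 * (a * a)) ^ (a + 1) := (mul_pow _ _ _).symm
      _ = (2 * a ^ 2) ^ (a + 1) := by rw [sq]
  have h2 : 8 * g * (s * a ^ (a + 1)) ≤ (a * c) ^ (a + 1) := by
    calc 8 * g * (s * a ^ (a + 1)) = (8 * g * s) * a ^ (a + 1) := by ring
      _ ≤ 2 ^ (a + 1) * a ^ (a + 1) := Nat.mul_le_mul_right _ hs'
      _ ≤ c ^ (a + 1) * a ^ (a + 1) := by
          refine Nat.mul_le_mul_right _ (Nat.pow_le_pow_left hc3 _)
      _ = (a * c) ^ (a + 1) := by rw [mul_pow, Nat.mul_comm]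
  exact oracle_rand_finite (K := 2 * a ^ 2) D C hnot φ ψ H hφ hψ hD1 hgap rfl hg (by omega)
    (by omega) hn1 (by omega) (Nat.mul_pos (by omega) (by omega)) a a (by omega) ha h1 h2 h3
    hslots

open Classical in
/-- the gap in terms of numbers of random strings, for an arbitrary acceptance relation -/
theorem gap_nat' {A : Type} {g : ℕ} {γ : ℝ} (hγ : 0 < γ) (hgγ : 1 / γ ≤ g)
    (P : A → (Fin b → Bool) → Prop) (G G' : A)
    (h : (Nat.card {r : Fin b → Bool // P G' r} : ℝ) / 2 ^ b + γ ≤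
      (Nat.card {r : Fin b → Bool // P G r} : ℝ) / 2 ^ b) :
    2 ^ b ≤ g * (univ.filter (fun r : Fin b → Bool => P G r ∧ ¬ P G' r)).card := by
  have e : ∀ G : A, (Nat.card {r : Fin b → Bool // P G r} : ℝ) =
      ((univ.filter (fun r : Fin b → Bool => P G r)).card : ℝ) := by
    intro G
    rw [Nat.card_eq_fintype_card, Fintype.card_subtype]
  rw [e, e] at h
  have h2t : (0 : ℝ) < 2 ^ b := by positivity
  have hc : (univ.filter (fun r : Fin b → Bool => P G r)).card ≤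
      (univ.filter (fun r : Fin b → Bool => P G' r)).card +
      (univ.filter (fun r : Fin b → Bool => P G r ∧ ¬ P G' r)).card := by
    rw [Nat.add_comm]
    refine (card_le_card ?_).trans (card_union_le _ _)
    intro r hr
    simp only [mem_filter, mem_univ, true_and, mem_union] at hr ⊢
    tauto
  have hcR : ((univ.filter (fun r : Fin b → Bool => P G r)).card : ℝ) ≤
      (univ.filter (fun r : Fin b → Bool => P G' r)).card +
      (univ.filter (fun r : Fin b → Bool => P G r ∧ ¬ P G' r)).card := by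
    exact_mod_cast hc
  have h4 : γ * 2 ^ b ≤
      ((univ.filter (fun r : Fin b → Bool => P G r ∧ ¬ P G' r)).card : ℝ) := by
    have h5 := mul_le_mul_of_nonneg_right h h2t.le
    rw [add_mul, div_mul_cancel₀ _ h2t.ne', div_mul_cancel₀ _ h2t.ne'] at h5
    linarith
  have h6 : (2 : ℝ) ^ b ≤ g *
      ((univ.filter (fun r : Fin b → Bool => P G r ∧ ¬ P G' r)).card : ℝ) := by
    calc (2 : ℝ) ^ b = (1 / γ) * (γ * 2 ^ b) := by field_simp
      _ ≤ g * ((univ.filter (fun r : Fin b → Bool =>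
          P G r ∧ ¬ P G' r)).card : ℝ) :=
          mul_le_mul hgγ h4 (by positivity) (Nat.cast_nonneg _)
  exact_mod_cast h6

/-- conversion of the natural-number form to the real form -/
theorem real_of_nat_gap {h M : ℕ} {γ : ℝ} (hn : 1 ≤ n) (hs : 1 ≤ s) (hM : 1 ≤ M)
    (hγ : 0 < γ) (hγ1 : γ ≤ 1)
    (key : ∀ g a : ℕ, 1 ≤ g → 1 / γ ≤ g → 2 ≤ a → 4 * (2 * a) ^ 16 * g ^ 2 * (2 * g * M) ≤ h →
      2 ^ a ≤ 4 * g * n * s) :
    (2 : ℝ) ^ ((γ ^ 3 * h / M) ^ (1 / 16 : ℝ) / 4) ≤ 8 * n * s / γ := by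
  by_contra hlt
  push Not at hlt
  obtain ⟨g, hg⟩ : ∃ g : ℕ, g = ⌈1 / γ⌉₊ := ⟨_, rfl⟩
  have h1γ : 1 ≤ 1 / γ := by
    rw [le_div_iff₀ hγ]
    linarith
  have hgγ : 1 / γ ≤ g := by
    rw [hg]
    exact Nat.le_ceil _
  have hg1 : 1 ≤ g := by
    have : (1 : ℝ) ≤ g := h1γ.trans hgγ
    exact_mod_cast this
  have hg2 : (g : ℝ) ≤ 2 / γ := by
    have h2 : (g : ℝ) < 1 / γ + 1 := by
      rw [hg]
      exact Nat.ceil_lt_add_one (by positivity)
    have h3 : 2 / γ = 1 / γ + 1 / γ := by ring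
    linarith
  have hnR : (1 : ℝ) ≤ n := by exact_mod_cast hn
  have hsR : (1 : ℝ) ≤ s := by exact_mod_cast hs
  have hMR : (0 : ℝ) < M := by exact_mod_cast hM
  set y : ℝ := γ ^ 3 * h / M with hy
  have hy0 : 0 ≤ y := by positivity
  set x : ℝ := y ^ (1 / 16 : ℝ) / 4 with hx
  have hx0 : 0 ≤ x := by positivity
  have h8 : (8 : ℝ) ≤ 8 * n * s / γ := by
    rw [le_div_iff₀ hγ]
    have h5 : (1 : ℝ) ≤ n * s := by
      calc (1 : ℝ) = 1 * 1 := by ring
        _ ≤ n * s := mul_le_mul hnR hsR (by norm_num) (by linarith)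
    nlinarith
  have hx3 : 3 < x := by
    by_contra hcon
    push Not at hcon
    have h2 : (2 : ℝ) ^ x ≤ (2 : ℝ) ^ (3 : ℝ) :=
      Real.rpow_le_rpow_of_exponent_le (by norm_num) hcon
    have h3 : (2 : ℝ) ^ (3 : ℝ) = 8 := by norm_num
    linarith
  set a : ℕ := ⌈x⌉₊ with ha
  have hax : x ≤ a := Nat.le_ceil x
  have hax' : (a : ℝ) < x + 1 := Nat.ceil_lt_add_one hx0
  have ha2 : 2 ≤ a := by
    have : (3 : ℝ) < a := hx3.trans_le hax
    have : 3 < a := by exact_mod_cast this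
    omega
  have h4x : (4 * x) ^ 16 = y := by
    have h5 : 4 * x = y ^ (1 / 16 : ℝ) := by rw [hx]; ring
    rw [h5, ← Real.rpow_natCast, ← Real.rpow_mul hy0]
    norm_num
  have h2 : 64 * ((2 : ℝ) * a) ^ 16 ≤ y := by
    have h2 : (2 : ℝ) * a ≤ (2 / 3) * (4 * x) := by linarith
    have h3 : ((2 : ℝ) * a) ^ 16 ≤ ((2 / 3) * (4 * x)) ^ 16 :=
      pow_le_pow_left₀ (by positivity) h2 16
    rw [mul_pow (2 / 3 : ℝ), h4x] at h3
    have h5 : (64 : ℝ) * ((2 / 3) ^ 16 * y) ≤ y := by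
      have h6 : (64 : ℝ) * (2 / 3) ^ 16 ≤ 1 := by norm_num
      calc (64 : ℝ) * ((2 / 3) ^ 16 * y) = (64 * (2 / 3) ^ 16) * y := by ring
        _ ≤ 1 * y := mul_le_mul_of_nonneg_right h6 hy0
        _ = y := one_mul _
    calc 64 * ((2 : ℝ) * a) ^ 16 ≤ 64 * ((2 / 3) ^ 16 * y) :=
          mul_le_mul_of_nonneg_left h3 (by norm_num)
      _ ≤ y := h5
  have hgR : (0 : ℝ) ≤ g := Nat.cast_nonneg _
  have hg3 : (g : ℝ) ^ 3 * γ ^ 3 ≤ 8 := by
    have h5 : (g : ℝ) * γ ≤ 2 := by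
      have := mul_le_mul_of_nonneg_right hg2 hγ.le
      rwa [div_mul_cancel₀ _ hγ.ne'] at this
    calc (g : ℝ) ^ 3 * γ ^ 3 = (g * γ) ^ 3 := by ring
      _ ≤ 2 ^ 3 := pow_le_pow_left₀ (by positivity) h5 3
      _ = 8 := by norm_num
  have h3 : 4 * (2 * a) ^ 16 * g ^ 2 * (2 * g * M) ≤ h := by
    have h4 : (4 : ℝ) * (2 * a) ^ 16 * g ^ 2 * (2 * g * M) ≤ h := by
      have h5 : 64 * ((2 : ℝ) * a) ^ 16 * M ≤ γ ^ 3 * h := by
        rw [hy, le_div_iff₀ hMR] at h2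
        exact h2
      have h6 : (g : ℝ) ^ 3 * (64 * ((2 : ℝ) * a) ^ 16 * M) ≤
          (g : ℝ) ^ 3 * (γ ^ 3 * h) := mul_le_mul_of_nonneg_left h5 (by positivity)
      have h7 : (g : ℝ) ^ 3 * (γ ^ 3 * (h : ℝ)) ≤ 8 * (h : ℝ) := by
        calc (g : ℝ) ^ 3 * (γ ^ 3 * (h : ℝ)) = ((g : ℝ) ^ 3 * γ ^ 3) * (h : ℝ) := by
              ring
          _ ≤ 8 * (h : ℝ) := mul_le_mul_of_nonneg_right hg3 (Nat.cast_nonneg _)
      have h9 : 8 * ((4 : ℝ) * (2 * a) ^ 16 * g ^ 2 * (2 * g * M)) =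
          (g : ℝ) ^ 3 * (64 * ((2 : ℝ) * a) ^ 16 * M) := by ring
      linarith
    exact_mod_cast h4
  have h4 := key g a hg1 hgγ ha2 h3
  have h5 : (2 : ℝ) ^ x ≤ (2 : ℝ) ^ (a : ℝ) :=
    Real.rpow_le_rpow_of_exponent_le (by norm_num) hax
  rw [Real.rpow_natCast] at h5
  have h6 : ((2 ^ a : ℕ) : ℝ) ≤ ((4 * g * n * s : ℕ) : ℝ) := by exact_mod_cast h4
  push_cast at h6
  have h7 : (4 : ℝ) * g * n * s ≤ 8 * n * s / γ := by
    have h8 : (4 : ℝ) * g * n * s = g * (4 * n * s) := by ring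
    have h9 : 8 * n * s / γ = 2 / γ * (4 * n * s) := by ring
    rw [h8, h9]
    exact mul_le_mul_of_nonneg_right hg2 (by positivity)
  linarith

/-- real form -/
theorem oracle_rand_real {γ : ℝ} (hn : 1 ≤ n) (hγ : 0 < γ) (hγ1 : γ ≤ 1)
    (C : (Fin b → Bool) → Circuit ({p : Fin n × Fin n // p.1 < p.2} ⊕ (Fin t ⊕ Fin u)) s)
    (hnot : ∀ r i, (C r).kind i ≠ GateKind.not)
    (φ : (Fin b → Bool) → Fin t → ({p : Fin n × Fin n // p.1 < p.2} → Prop) → Prop)
    (ψ : (Fin b → Bool) → Fin u → ({p : Fin n × Fin n // p.1 < p.2} → Prop) → Prop)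
    (H : Finset {p : Fin n × Fin n // p.1 < p.2})
    (hφ : ∀ r i, AntitoneIn H (φ r i)) (hψ : ∀ r i, IndependentOf H (ψ r i))
    (hgap : ∀ G G' : SimpleGraph (Fin n), HasBigClique G → ¬ HasBigClique G' →
      acceptProbO C φ ψ G' + γ ≤ acceptProbO C φ ψ G) :
    (2 : ℝ) ^ ((γ ^ 3 * H.card / (t + 1)) ^ (1 / 16 : ℝ) / 4) ≤ 8 * n * s / γ := by
  classical
  have hs : 1 ≤ s := by
    have := (C (fun _ => true)).out.isLt
    omega
  have h := real_of_nat_gap (h := H.card) (M := t + 1) hn hs (by omega) hγ hγ1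
    (fun g a hg1 hgγ ha2 h3 => oracle_rand_nat hn C hnot φ ψ H hφ hψ
      (fun G G' hG hG' => gap_nat' hγ hgγ (AcceptsO C φ ψ) G G' (hgap G G' hG hG')) hg1 ha2 h3)
  push_cast at h
  exact h

end

end Pool.Agent.RandomCircuits
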