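import Pool.Agent.Lib.MP_b573ec_lc.Count
import Pool.Agent.Lib.MP_b573ec_lc.Defs

/-!
Lower bound for randomized circuits deciding the clique problem: finite form.
-/

set_option autoImplicit false

namespace Pool.Agent.RandomCircuits

open Finset Pool.Agent.CliqueCircuits

section

variable {n t s L k m K e : ℕ}

/-- a family of inputs extended by fixed values of the random bits -/
def extF {V : Type} (F : OrFamily V L k m K) (r : Fin t → Prop) :
    OrFamily (V ⊕ Fin t) L k m K where
  asg st := Sum.elim (F.asg st) r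
  mono := by
    intro st st' h v hv
    rcases v with v | v
    · exact F.mono st st' h v hv
    · exact hv
  loc := by
    classical
    intro st j
    obtain ⟨τ, hτ, hτP, hτN⟩ := F.loc st j
    refine ⟨Sum.elim τ (fun i => if r i then InTy.tt else InTy.ff), ?_, ?_, ?_⟩
    · intro v u u' h
      rcases v with v | v
      · exact hτ v u u' h
      · simp only [Sum.elim_inr] at h
        split_ifs at h
    · intro p v
      rcases v with v | v
      · exact hτP p v
      · by_cases hb : r v
        · simp [hb, InTy.pos]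
        · simp [hb, InTy.pos]
    · intro c v
      rcases v with v | v
      · exact hτN c v
      · by_cases hb : r v
        · simp [hb, InTy.neg]
        · simp [hb, InTy.neg]

theorem accepts_iff (C : Circuit ({p : Fin n × Fin n // p.1 < p.2} ⊕ Fin t) s)
    (G : SimpleGraph (Fin n)) (r : Fin t → Bool) :
    Accepts C G r ↔ Acc C (Sum.elim (fun e => G.Adj e.1.1 e.1.2) (fun i => r i = true)) := by
  constructor
  · rintro ⟨val, h1, h2⟩
    exact ⟨val, (C.isEval_iff _ _).1 h1, h2⟩
  · rintro ⟨val, h1, h2⟩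
    exact ⟨val, (C.isEval_iff _ _).2 h1, h2⟩

open Classical in
theorem rand_finite {ρ g : ℕ} (D : RoleData n L k m e)
    (C : Circuit ({p : Fin n × Fin n // p.1 < p.2} ⊕ Fin t) s)
    (H : Finset {p : Fin n × Fin n // p.1 < p.2})
    (hvarH : ∀ j ξ, HR H (D.zc j (D.π ξ)) (D.wl j ξ))
    (hρ : ∀ r, numNotGiven C H r ≤ ρ)
    (hgap : ∀ G G' : SimpleGraph (Fin n), HasBigClique G → ¬ HasBigClique G' →
      2 ^ t ≤ g * (univ.filter (fun r : Fin t → Bool => Accepts C G r ∧ ¬ Accepts C G' r)).card)
    (hL : L = 2 * g * 2 ^ ρ) (hg : 1 ≤ g) (hK : K < k) (hk2 : 2 ≤ k) (hn : 1 ≤ n)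
    (hKpos : 0 < K) (hmpos : 0 < m)
    (q l : ℕ) (hq : 1 ≤ q) (hl : 2 ≤ l)
    (h1 : 8 * g * (s * (l * l) ^ (q + 1)) ≤ K ^ (q + 1))
    (h2 : 8 * g * (s * q ^ (l + 1)) ≤ m ^ (l + 1))
    (h3 : 4 * g * ((ρ + 1) * q ^ 2) < m ^ 2)
    (hslots : D.slots = Nat.sqrt n + 1) : False := by
  have hedH : ∀ (ed : {p : Fin n × Fin n // p.1 < p.2}) ξ, D.IsVar ξ ed.1.1 ed.1.2 →
      ed ∈ H := by
    intro ed ξ hv
    refine (hvarH ξ.1 ξ.2).mem ed ?_
    rcases hv with ⟨a, b⟩ | ⟨a, b⟩
    · left; exact ⟨a.symm, b.symm⟩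
    · right; exact ⟨a.symm, b.symm⟩
  let F0 : OrFamily {p : Fin n × Fin n // p.1 < p.2} L k m K := D.family
  let F : (Fin t → Bool) → OrFamily ({p : Fin n × Fin n // p.1 < p.2} ⊕ Fin t) L k m K :=
    fun r => extF F0 (fun i => r i = true)
  -- graphs
  let GP : Fin L × (Fin L → Fin k × Fin m → Fin K) × (Fin k → Fin m) → SimpleGraph (Fin n) :=
    fun z => D.graph (xOfO (K := K) (Function.update (stN z.2.1 z.1.val) z.1 (OState.tr z.2.2)))
  let GN : Fin L × (Fin L → Fin k × Fin m → Fin K) × (Fin k → Fin m) → SimpleGraph (Fin n) :=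
    fun z => D.graph (xOfO (stN z.2.1 (z.1.val + 1)))
  have hyes : ∀ z, HasBigClique (GP z) := by
    intro z
    obtain ⟨S, hS, hcard⟩ := D.clique_of_tr
      (Function.update (stN z.2.1 z.1.val) z.1 (OState.tr (K := K) z.2.2)) z.1 z.2.2 (by simp)
    refine ⟨S, hS, ?_⟩
    rw [hcard, hslots]
    push_cast
    exact Real.real_sqrt_lt_nat_sqrt_succ
  have hno : ∀ z, ¬ HasBigClique (GN z) := by
    rintro z ⟨S, hS, hcardS⟩
    have hsqrt : (Nat.sqrt n : ℝ) ≤ Real.sqrt n := Real.nat_sqrt_le_real_sqrt
    have hcard' : Nat.sqrt n < S.card := by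
      have : (Nat.sqrt n : ℝ) < (S.card : ℝ) := hsqrt.trans_lt hcardS
      exact_mod_cast this
    have hsq1 : 1 ≤ Nat.sqrt n := Nat.sqrt_pos.2 hn
    refine D.no_clique (stN z.2.1 (z.1.val + 1)) hK hk2 ?_ S hS (by rw [hslots]; exact hcard')
      (by omega)
    intro i
    simp only [stN]
    by_cases hi : i.val < z.1.val + 1
    · right
      exact ⟨z.2.1 i, by rw [if_pos hi]⟩
    · left
      rw [if_neg hi]
  -- the number of bad triples for each random string
  let T : ℕ := Fintype.card (Fin L → Fin k × Fin m → Fin K) * m ^ k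
  have hTpos : 0 < T := by
    refine Nat.mul_pos ?_ (pow_pos hmpos _)
    rw [Fintype.card_pos_iff]
    exact ⟨fun _ _ => ⟨0, hKpos⟩⟩
  have hup : ∀ r : Fin t → Bool, g * (univ.filter (fun z =>
      Accepts C (GP z) r ∧ ¬ Accepts C (GN z) r)).card < L * T := by
    intro r
    let R : Finset (Fin s) := univ.filter (fun i => C.kind i = GateKind.not ∧
      DependsOnEdges C H r i)
    have hR : R.card ≤ ρ := by
      refine le_trans (le_of_eq ?_) (hρ r)
      simp only [R, numNotGiven]
      rw [Nat.card_eq_fintype_card, Fintype.card_subtype]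
    have hconst : ∀ i, C.kind i = GateKind.not → i ∉ R → ∀ st st' val val',
        C.IsEvalM ((F r).asg st) val → C.IsEvalM ((F r).asg st') val' → (val i ↔ val' i) := by
      intro i hi hiR st st' val val' hv hv'
      by_contra hne
      apply hiR
      simp only [R, mem_filter, mem_univ, true_and]
      refine ⟨hi, F0.asg st, F0.asg st', val, val', ?_, (C.isEval_iff _ _).2 hv,
        (C.isEval_iff _ _).2 hv', hne⟩
      intro ed hed
      constructor
      · exact D.adj_congr (fun ξ hξ => absurd (hedH ed ξ hξ) hed)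
      · exact D.adj_congr (fun ξ hξ => absurd (hedH ed ξ hξ) hed)
    have h := chain_count C (F r) ρ R hR hconst q l g hq hl hg hKpos hmpos h1 h2 h3
    have hfil : (univ.filter (fun z => Accepts C (GP z) r ∧ ¬ Accepts C (GN z) r)) =
        (univ.filter (fun z : Fin L × (Fin L → Fin k × Fin m → Fin K) × (Fin k → Fin m) =>
          Acc C ((F r).asg (Function.update (stN z.2.1 z.1.val) z.1 (OState.tr z.2.2))) ∧
          ¬ Acc C ((F r).asg (stN z.2.1 (z.1.val + 1))))) := by
      refine filter_congr fun z _ => ?_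
      rw [accepts_iff, accepts_iff]
      exact Iff.rfl
    rw [hfil]
    rw [← hL] at h
    have e1 : (L + L) * T = 2 * (L * T) := by ring
    have e2 : 2 * g * (univ.filter (fun z : Fin L × (Fin L → Fin k × Fin m → Fin K) ×
          (Fin k → Fin m) =>
          Acc C ((F r).asg (Function.update (stN z.2.1 z.1.val) z.1 (OState.tr z.2.2))) ∧
          ¬ Acc C ((F r).asg (stN z.2.1 (z.1.val + 1))))).card =
        2 * (g * (univ.filter (fun z : Fin L × (Fin L → Fin k × Fin m → Fin K) ×
          (Fin k → Fin m) =>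
          Acc C ((F r).asg (Function.update (stN z.2.1 z.1.val) z.1 (OState.tr z.2.2))) ∧
          ¬ Acc C ((F r).asg (stN z.2.1 (z.1.val + 1))))).card) := by ring
    have h' := h
    rw [e2] at h'
    change _ < (L + L) * T at h'
    omega
  -- double counting
  have hdc : ∑ r : Fin t → Bool, (univ.filter (fun z =>
      Accepts C (GP z) r ∧ ¬ Accepts C (GN z) r)).card =
      ∑ z, (univ.filter (fun r : Fin t → Bool =>
        Accepts C (GP z) r ∧ ¬ Accepts C (GN z) r)).card := by
    simp only [card_filter]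
    exact sum_comm
  have hcardz : Fintype.card (Fin L × (Fin L → Fin k × Fin m → Fin K) × (Fin k → Fin m)) =
      L * T := by
    rw [Fintype.card_prod, Fintype.card_prod, Fintype.card_fin,
      Fintype.card_fun (α := Fin k), Fintype.card_fin, Fintype.card_fin]
  have hlow : 2 ^ t * (L * T) ≤ g * ∑ z, (univ.filter (fun r : Fin t → Bool =>
        Accepts C (GP z) r ∧ ¬ Accepts C (GN z) r)).card := by
    rw [mul_sum]
    calc 2 ^ t * (L * T) = ∑ _z : Fin L × (Fin L → Fin k × Fin m → Fin K) × (Fin k → Fin m),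
          2 ^ t := by
          rw [sum_const, card_univ, hcardz, smul_eq_mul, Nat.mul_comm]
      _ ≤ _ := sum_le_sum fun z _ => hgap _ _ (hyes z) (hno z)
  have hhigh : g * ∑ r : Fin t → Bool, (univ.filter (fun z =>
      Accepts C (GP z) r ∧ ¬ Accepts C (GN z) r)).card < 2 ^ t * (L * T) := by
    rw [mul_sum]
    calc ∑ r : Fin t → Bool, g * (univ.filter (fun z =>
          Accepts C (GP z) r ∧ ¬ Accepts C (GN z) r)).card
        < ∑ _r : Fin t → Bool, L * T :=
          sum_lt_sum_of_nonempty univ_nonempty fun r _ => hup r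
      _ = 2 ^ t * (L * T) := by
          rw [sum_const, card_univ, smul_eq_mul, Fintype.card_fun, Fintype.card_fin,
            Fintype.card_bool]
  rw [hdc] at hhigh
  exact absurd (hlow.trans_lt hhigh) (lt_irrefl _)

end

end Pool.Agent.RandomCircuits
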